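import Pool.Agent.H94.EP.CoP
import Pool.Agent.H94.EP.CoS

/-!
MP_09540e_TQ, core (sub-PI helper67): interface of the assembly with the exponent 3/4. The correction `PS` of the functional
(arguments `κ L a v`) and the rate `RQ` of `NO / 2 - dl * PS` are arbitrary functions with the properties below.
-/

set_option autoImplicit false

open Set Filter Topology MeasureTheory
open scoped ContDiff

namespace Pool.Agent.H67.TQ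

open Pool.Agent.H16 Pool.Agent.H87.NS Pool.Agent.H72.CC Pool.Agent.H16.TU Pool.Agent.H94.EP

/-- The corrected functional. -/
noncomputable def FQ (PS : ℝ → ℝ → ℝ → (E3 → E3) → ℝ) (dl θ l κ L a : ℝ) (v : E3 → E3) : ℝ :=
  FF θ l L a v - l * (dl * PS κ L a v)

/-- The correction is nonnegative and dominated. -/
def QPos (PS : ℝ → ℝ → ℝ → (E3 → E3) → ℝ) (dl : ℝ) : Prop :=
  ∀ (κ L a : ℝ) (v : E3 → E3), Vs v → 1 ≤ κ → 1 ≤ L → 0 ≤ dl * PS κ L a v ∧ dl * PS κ L a v ≤ NO L a v / 4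

/-- The rate of `NO / 2 - dl * PS`. -/
def QRate (RQ : ℝ → ℝ → ℝ → (E3 → E3) → ℝ) : Prop :=
  ∃ C : ℝ, 1 ≤ C ∧ ∀ (ε K κ L a : ℝ) (v : E3 → E3), Sl ε K κ v → C * K ≤ L → C ≤ K → (K * L) ^ 4 ≤ κ →
    C * (ε ^ 2 * Sc κ * √(Sc κ)) ≤ 1 → (∀ b, K * L * NO L b v ≤ κ) →
    RQ κ L a v ≤ - (1 / 4) * DO L a v + C * ε ^ 2 * Sc κ * (YY κ L a v + Sc κ * DJ L a v + Sc κ * GG L a v) +
      C * (K * L) ^ 2 * GG L a v + C * (K * L) ^ 3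

/-- The energy inequality; `h` is any continuous bound of the rate `RQ`. -/
def QIn (PS RQ : ℝ → ℝ → ℝ → (E3 → E3) → ℝ) (dl : ℝ) : Prop :=
  ∀ (T : ℝ) (u : ℝ → E3 → E3) (p : ℝ → E3 → ℝ), IsHInfAxisymNS T u p → ∀ θ l κ L a : ℝ, 0 < θ → θ ≤ 1 / 2 → 0 ≤ l →
    1 ≤ κ → 1 ≤ L → ∀ t₁ t₂ : ℝ, 0 ≤ t₁ → t₁ ≤ t₂ → t₂ < T → ∀ h : ℝ → ℝ, ContinuousOn h (Icc t₁ t₂) →
    (∀ s ∈ Icc t₁ t₂, RQ κ L a (u s) ≤ h s) →
    FQ PS dl θ l κ L a (u t₂) ≤ FQ PS dl θ l κ L a (u t₁) +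
      ∫ s in t₁..t₂, (RJ L a (u s) / 2 + RB θ L a (u s) / 2 + l * h s)

/-- Continuity of the correction in time. -/
def QCont (PS : ℝ → ℝ → ℝ → (E3 → E3) → ℝ) : Prop :=
  ∀ (T : ℝ) (u : ℝ → E3 → E3) (p : ℝ → E3 → ℝ), IsHInfAxisymNS T u p → ∀ κ L a : ℝ, 1 ≤ κ → 1 ≤ L →
    ContinuousOn (fun t => PS κ L a (u t)) (Ico 0 T)

/-- `NO` is Lipschitz in time, uniformly in the height. -/
def QLip : Prop :=
  ∀ (T : ℝ) (u : ℝ → E3 → E3) (p : ℝ → E3 → ℝ), IsHInfAxisymNS T u p → ∀ b < T, ∀ L : ℝ, 1 ≤ L →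
    ∃ B : ℝ, 0 ≤ B ∧ ∀ s ∈ Icc 0 b, ∀ t ∈ Icc 0 b, ∀ a, |NO L a (u t) - NO L a (u s)| ≤ B * |t - s|

end Pool.Agent.H67.TQ
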