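import Pool.Agent.H88.TQ.A4a

/-! MP_09540e_TQ, A3: centred primitives of the elements of `Kc c`, competitors, supports. -/

set_option autoImplicit false

open Set Filter Topology MeasureTheory
open scoped ContDiff InnerProductSpace

namespace Pool.Agent.H67.TQ

open Pool.Agent.H42.TQ Pool.Agent.H88.TQ

/-- `w` is a primitive of `-p`. -/
def Prim (p : Hz) (w : ℝ → ℝ) : Prop := ∀ a b : ℝ, w b - w a = - ∫ z in a..b, p z

/-- The centred primitive of `-p`. -/
noncomputable def wp (p : Hz) (z : ℝ) : ℝ :=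
  ((⨆ t : ℝ, ∫ y in (0 : ℝ)..t, p y) + ⨅ t : ℝ, ∫ y in (0 : ℝ)..t, p y) / 2 - ∫ y in (0 : ℝ)..z, p y

theorem wp_prim (p : Hz) : Prim p (wp p) := by
  intro a b
  unfold wp
  have h := intervalIntegral.integral_add_adjacent_intervals (int_ii p 0 a) (int_ii p a b)
  linarith

theorem wp_abs {c : ℝ} {p : Hz} (hp : p ∈ Kc c) (z : ℝ) : |wp p z| ≤ c := by
  have hab : ∀ a b : ℝ, (∫ y in (0 : ℝ)..b, p y) - (∫ y in (0 : ℝ)..a, p y) ≤ 2 * c := by
    intro a b
    have h := intervalIntegral.integral_add_adjacent_intervals (int_ii p 0 a) (int_ii p a b)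
    have h2 := (abs_le.1 (hp a b)).2
    linarith
  have hbA : BddAbove (range fun t : ℝ => ∫ y in (0 : ℝ)..t, p y) := by
    refine ⟨2 * c, ?_⟩
    rintro _ ⟨t, rfl⟩
    have := hab 0 t
    simpa using this
  have hbB : BddBelow (range fun t : ℝ => ∫ y in (0 : ℝ)..t, p y) := by
    refine ⟨-(2 * c), ?_⟩
    rintro _ ⟨t, rfl⟩
    have := hab t 0
    simp at this ⊢
    linarith
  have h1 : (⨆ t : ℝ, ∫ y in (0 : ℝ)..t, p y) ≤ (⨅ t : ℝ, ∫ y in (0 : ℝ)..t, p y) + 2 * c := by
    refine ciSup_le fun t => ?_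
    have h2 : (∫ y in (0 : ℝ)..t, p y) - 2 * c ≤ ⨅ t : ℝ, ∫ y in (0 : ℝ)..t, p y :=
      le_ciInf fun r => by
        have := hab r t
        linarith
    linarith
  have h2 := le_ciSup hbA z
  have h3 := ciInf_le hbB z
  unfold wp
  rw [abs_le]
  constructor <;> linarith

theorem Prim.cont {p : Hz} {w : ℝ → ℝ} (hw : Prim p w) : Continuous w := by
  have h : w = fun z => w 0 + -(∫ y in (0 : ℝ)..z, p y) := funext fun z => by
    have := hw 0 z
    linarith
  rw [h]
  exact continuous_const.add (intervalIntegral.continuous_primitive (fun a b => int_ii p a b) 0).neg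

theorem Prim.ac {p : Hz} {w : ℝ → ℝ} (hw : Prim p w) (a b : ℝ) : AbsolutelyContinuousOnInterval w a b := by
  have h : w = fun z => w a + (-1) * (∫ y in a..z, p y) := funext fun z => by
    have := hw a z
    linarith
  rw [h]
  have h1 := ((int_ii p a b).absolutelyContinuousOnInterval_intervalIntegral (c := a) (by simp)).const_mul (-1)
  have h2 : AbsolutelyContinuousOnInterval (fun _ : ℝ => w a) a b :=
    (contDiff_const.contDiffOn (n := 1)).absolutelyContinuousOnInterval
  exact h2.fun_add h1

theorem Prim.ae_deriv {p : Hz} {w : ℝ → ℝ} (hw : Prim p w) : ∀ᵐ z, deriv w z = - p z := by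
  have h0 : LocallyIntegrable (fun z => p z) volume := (Lp.memLp p).locallyIntegrable (by norm_num)
  have h := LocallyIntegrable.ae_hasDerivAt_integral h0
  filter_upwards [h] with z hz
  have h1 : w = fun z => w 0 + -(∫ y in (0 : ℝ)..z, p y) := funext fun z => by
    have := hw 0 z
    linarith
  rw [h1]
  exact ((hz 0).neg.const_add (w 0)).deriv

/-- Integration by parts. -/
theorem Prim.parts {p : Hz} {w : ℝ → ℝ} (hw : Prim p w) {φ φ' : ℝ → ℝ} (hφ : ∀ z, HasDerivAt φ (φ' z) z)
    (hc : Continuous φ') (a b : ℝ) :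
    ∫ z in a..b, p z * φ z = w a * φ a - w b * φ b + ∫ z in a..b, w z * φ' z := by
  have hd : deriv φ = φ' := funext fun z => (hφ z).deriv
  have hφ1 : ContDiff ℝ 1 φ := by
    rw [contDiff_one_iff_deriv]
    exact ⟨fun z => (hφ z).differentiableAt, by rw [hd]; exact hc⟩
  have h1 : AbsolutelyContinuousOnInterval φ a b := hφ1.contDiffOn.absolutelyContinuousOnInterval
  have h2 := h1.integral_mul_deriv_eq_deriv_mul (hw.ac a b)
  rw [hd] at h2
  have h3 : ∫ z in a..b, φ z * deriv w z = - ∫ z in a..b, p z * φ z := by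
    rw [← intervalIntegral.integral_neg]
    refine intervalIntegral.integral_congr_ae ?_
    filter_upwards [hw.ae_deriv] with z hz _
    rw [hz]
    ring
  rw [h3] at h2
  have h4 : ∫ z in a..b, φ' z * w z = ∫ z in a..b, w z * φ' z := by
    congr 1
    funext z
    ring
  rw [h4] at h2
  linarith

/-- An element with a primitive bounded by `c` is in `Kc c`. -/
theorem Kc_of {c : ℝ} {p : Hz} {w : ℝ → ℝ} (hw : Prim p w) (hb : ∀ z, |w z| ≤ c) : p ∈ Kc c := by
  intro a b
  have h := hw a b
  have h1 := abs_le.1 (hb a)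
  have h2 := abs_le.1 (hb b)
  rw [abs_le]
  constructor <;> linarith

/-- Competitors. -/
theorem Kc_comp {c : ℝ} {p p' q : Hz} {w w' th th' : ℝ → ℝ} (hw : Prim p w) (hb : ∀ z, |w z| ≤ c) (hw' : Prim p' w')
    (hb' : ∀ z, |w' z| ≤ c) (h0 : ∀ z, 0 ≤ th z) (h1 : ∀ z, th z ≤ 1) (hth : ∀ z, HasDerivAt th (th' z) z)
    (hc : Continuous th') (hq : ∀ᵐ z, q z = (1 - th z) * p z + th z * p' z + th' z * (w z - w' z)) :
    Prim q (fun z => (1 - th z) * w z + th z * w' z) ∧ q ∈ Kc c := by
  have hthc : Continuous th := continuous_iff_continuousAt.2 fun z => (hth z).continuousAt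
  have hP : Prim q (fun z => (1 - th z) * w z + th z * w' z) := by
    intro a b
    have e1 : ∫ z in a..b, q z = ∫ z in a..b, ((p z * (1 - th z) + p' z * th z) + th' z * (w z - w' z)) := by
      refine intervalIntegral.integral_congr_ae ?_
      filter_upwards [hq] with z hz _
      rw [hz]
      ring
    have i1 : IntervalIntegrable (fun z => p z * (1 - th z)) volume a b :=
      (int_ii p a b).mul_continuousOn (continuous_const.sub hthc).continuousOn
    have i2 : IntervalIntegrable (fun z => p' z * th z) volume a b :=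
      (int_ii p' a b).mul_continuousOn hthc.continuousOn
    have i3 : IntervalIntegrable (fun z => th' z * (w z - w' z)) volume a b :=
      (hc.mul (hw.cont.sub hw'.cont)).intervalIntegrable a b
    have e2 := hw.parts (φ := fun z => 1 - th z) (φ' := fun z => - th' z) (fun z => (hth z).const_sub 1) hc.neg a b
    have e3 := hw'.parts hth hc a b
    have e4 : ∫ z in a..b, w z * - th' z = - ∫ z in a..b, w z * th' z := by
      rw [← intervalIntegral.integral_neg]
      congr 1
      funext z
      ring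
    have i4 : IntervalIntegrable (fun z => w z * th' z) volume a b := (hw.cont.mul hc).intervalIntegrable a b
    have i5 : IntervalIntegrable (fun z => w' z * th' z) volume a b := (hw'.cont.mul hc).intervalIntegrable a b
    have e5 : ∫ z in a..b, th' z * (w z - w' z) = (∫ z in a..b, w z * th' z) - ∫ z in a..b, w' z * th' z := by
      rw [← intervalIntegral.integral_sub i4 i5]
      congr 1
      funext z
      ring
    rw [e1, intervalIntegral.integral_add (i1.add i2) i3, intervalIntegral.integral_add i1 i2, e2, e3, e4, e5]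
    ring
  refine ⟨hP, Kc_of hP fun z => ?_⟩
  have h2 := abs_le.1 (hb z)
  have h3 := abs_le.1 (hb' z)
  have h4 := h0 z
  have h5 : 0 ≤ 1 - th z := by linarith [h1 z]
  rw [abs_le]
  constructor
  · nlinarith [mul_le_mul_of_nonneg_left h2.1 h5, mul_le_mul_of_nonneg_left h3.1 h4]
  · nlinarith [mul_le_mul_of_nonneg_left h2.2 h5, mul_le_mul_of_nonneg_left h3.2 h4]

end Pool.Agent.H67.TQ
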