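import Pool.Agent.H94.EP.Co1

/-! MP_09540e_TQ, core: the pointwise bound in the Gronwall lemma. -/

set_option autoImplicit false

open Set MeasureTheory

namespace Pool.Agent.H67.TQ

open Pool.Agent.H94.EP

theorem cq_pt {y d g : ℝ → ℝ} {t₀ t₁ α M : ℝ} (hα : 0 < α) (hα1 : α ≤ 1) (hM : 0 ≤ M)
    (hy : ContinuousOn y (Icc t₀ t₁)) (hd : ContinuousOn d (Icc t₀ t₁)) (hg : ContinuousOn g (Icc t₀ t₁))
    (hy0 : ∀ t ∈ Icc t₀ t₁, 0 ≤ y t) (hd0 : ∀ t ∈ Icc t₀ t₁, 0 ≤ d t)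
    (hin : ∀ s t : ℝ, t₀ ≤ s → s ≤ t → t ≤ t₁ → y t ≤ y s + ∫ r in s..t, (g r - α * y r - d r))
    (hw : ∀ s t : ℝ, t₀ ≤ s → s ≤ t → t ≤ t₁ → t ≤ s + 1 → ∫ r in s..t, g r ≤ M) :
    ∀ t ∈ Icc t₀ t₁, y t ≤ y t₀ + 3 * M / α := by
  have hiy : ∀ s t : ℝ, t₀ ≤ s → s ≤ t → t ≤ t₁ → IntervalIntegrable y volume s t := fun s t h1 h2 h3 =>
    (hy.mono (Icc_subset_Icc h1 h3)).intervalIntegrable_of_Icc h2
  have hid : ∀ s t : ℝ, t₀ ≤ s → s ≤ t → t ≤ t₁ → IntervalIntegrable d volume s t := fun s t h1 h2 h3 =>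
    (hd.mono (Icc_subset_Icc h1 h3)).intervalIntegrable_of_Icc h2
  have hig : ∀ s t : ℝ, t₀ ≤ s → s ≤ t → t ≤ t₁ → IntervalIntegrable g volume s t := fun s t h1 h2 h3 =>
    (hg.mono (Icc_subset_Icc h1 h3)).intervalIntegrable_of_Icc h2
  have hMα : M ≤ M / α := by
    rw [le_div_iff₀ hα]
    nlinarith
  have hb : ∀ t ∈ Icc t₀ t₁, y t ≤ max (y t₀) (M / α) + M := by
    intro t ht
    by_contra hcon
    push Not at hcon
    have hcl : IsClosed (Icc t₀ t ∩ y ⁻¹' Iic (max (y t₀) (M / α))) :=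
      (hy.mono (Icc_subset_Icc le_rfl ht.2)).preimage_isClosed_of_isClosed isClosed_Icc isClosed_Iic
    have hco : IsCompact (Icc t₀ t ∩ y ⁻¹' Iic (max (y t₀) (M / α))) :=
      isCompact_Icc.of_isClosed_subset hcl inter_subset_left
    have hne : (Icc t₀ t ∩ y ⁻¹' Iic (max (y t₀) (M / α))).Nonempty :=
      ⟨t₀, ⟨le_rfl, ht.1⟩, show y t₀ ≤ _ from le_max_left _ _⟩
    have hτ := hco.sSup_mem hne
    have hgt : ∀ r, r ∈ Icc t₀ t → sSup (Icc t₀ t ∩ y ⁻¹' Iic (max (y t₀) (M / α))) < r →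
        max (y t₀) (M / α) < y r := by
      intro r hr hlt
      by_contra hle
      push Not at hle
      exact absurd (le_csSup hco.bddAbove ⟨hr, hle⟩) (not_le.2 hlt)
    generalize hτdef : sSup (Icc t₀ t ∩ y ⁻¹' Iic (max (y t₀) (M / α))) = τ at hτ hgt
    obtain ⟨⟨hτ1, hτ2⟩, hτ3⟩ := hτ
    have hτ3' : y τ ≤ max (y t₀) (M / α) := hτ3
    have e1 := hin τ t hτ1 hτ2 ht.2
    have e2 : ∫ r in τ..t, (g r - α * y r - d r) ≤ ∫ r in τ..t, (g r - M) := by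
      refine intervalIntegral.integral_mono_on_of_le_Ioo hτ2 ?_ ?_ ?_
      · exact ((hig τ t hτ1 hτ2 ht.2).sub ((hiy τ t hτ1 hτ2 ht.2).const_mul α)).sub (hid τ t hτ1 hτ2 ht.2)
      · exact (hig τ t hτ1 hτ2 ht.2).sub intervalIntegrable_const
      · intro r hr
        have h1 := hgt r ⟨hτ1.trans hr.1.le, hr.2.le⟩ hr.1
        have h2 := hd0 r ⟨hτ1.trans hr.1.le, hr.2.le.trans ht.2⟩
        have h3 : M / α < y r := lt_of_le_of_lt (le_max_right _ _) h1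
        rw [div_lt_iff₀ hα] at h3
        linarith
    have e3 := co_long hM hg hw τ t hτ1 hτ2 ht.2
    rw [intervalIntegral.integral_sub (hig τ t hτ1 hτ2 ht.2) intervalIntegrable_const,
      intervalIntegral.integral_const, smul_eq_mul] at e2
    nlinarith
  intro t ht
  have e5 := hb t ht
  have e6 : max (y t₀) (M / α) ≤ y t₀ + M / α := by
    refine max_le ?_ ?_
    · have : 0 ≤ M / α := by positivity
      linarith
    · have := hy0 t₀ ⟨le_rfl, ht.1.trans ht.2⟩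
      linarith
  have e7 : 0 ≤ M / α := by positivity
  have e8 : 3 * M / α = M / α + M / α + M / α := by ring
  rw [e8]
  linarith

end Pool.Agent.H67.TQ
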