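import Pool.Agent.H67.TQ.P
import Pool.Agent.H94.EP.Co2

/-! MP_09540e_TQ, core: algebra of the rates. -/

set_option autoImplicit false

open Set Filter Topology MeasureTheory
open scoped ContDiff

namespace Pool.Agent.H67.TQ

open Pool.Agent.H16 Pool.Agent.H87.NS Pool.Agent.H72.CC Pool.Agent.H16.TU Pool.Agent.H94.EP

/-- The algebra: `t = 1 / S`, `l = S^(-1/2)`, `r = √S`. -/
theorem C2_alg {C S t l r ε K L A B J O G B2 Gb Y F rj rb rq : ℝ} (hC : 1 ≤ C) (hA : K ^ 2 ≤ A) (hAB : L * K ^ 3 ≤ B) (hS : 20 ≤ S) (hts : t * S = 1)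
    (ht0 : 0 < t) (hl0 : 0 < l) (hlt : l * l = t) (hlr : l * r = 1) (hε : 0 < ε) (hε1 : ε ≤ 1) (hK : 2 ≤ K) (hL : 1 ≤ L)
    (hp : 1000 * C ^ 2 * (ε ^ 2 * S * r) ≤ 1) (hJ : 0 ≤ J) (hO : 0 ≤ O) (hG : 0 ≤ G) (hB : 0 ≤ B2) (hGb : 0 ≤ Gb)
    (hF : 0 ≤ F)
    (ha : rj ≤ - (1 / 2) * J + C * (ε ^ 2 * S * O + K ^ 2 * G))
    (hq : rq ≤ - (1 / 4) * O + C * ε ^ 2 * S * (Y + S * J + S * G) + C * A * G + C * B)
    (hc : rb ≤ - (1 / 2) * (B2 + Gb) + 1 / 16 * J + C * (ε ^ 2 * S * O + (1 + K) * G + ε ^ 2 * L * K))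
    (hg : Y ≤ C * (S * Gb + J * t))
    (hh : F ≤ C * S * (J + B2 + Gb + l * O) + 2 * C * G) :
    rj + rb + l * rq ≤ - (1 / (1000 * C ^ 2) * t) * F - 1 / 16 * l * O + 1000 * C ^ 2 * (A * G + B) := by
  have hC0 : 0 < C := by linarith
  have hC2 : 1 ≤ C ^ 2 := one_le_pow₀ hC
  have hCC : C ≤ C ^ 2 := by nlinarith only [hC, hC2]
  have hS0 : 0 < S := by linarith
  have ht1 : t ≤ 1 / 20 := by nlinarith only [hS, hts, ht0]
  have hl1 : l ≤ 1 := by nlinarith only [ht0, hl0, hlt, ht1]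
  have hr0 : 0 < r := by
    by_contra h
    push Not at h
    have : l * r ≤ 0 := mul_nonpos_of_nonneg_of_nonpos hl0.le h
    linarith
  obtain ⟨p, hpdef⟩ : ∃ p, p = ε ^ 2 * S * r := ⟨_, rfl⟩
  have hp0 : 0 < p := by rw [hpdef]; positivity
  rw [← hpdef] at hp
  have hp2 : C ^ 2 * p ≤ 1 / 1000 := by linarith only [hp]
  have hp3 : C * p ≤ 1 / 1000 := by
    have := mul_le_mul_of_nonneg_right hCC hp0.le
    linarith
  have hεS : ε ^ 2 * S = p * l := by
    rw [hpdef]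
    have : ε ^ 2 * S * r * l = ε ^ 2 * S * (l * r) := by ring
    rw [this, hlr, mul_one]
  have hε2 : ε ^ 2 ≤ 1 := pow_le_one₀ hε.le hε1
  have hlO : 0 ≤ l * O := by positivity
  have hLK3 : 0 ≤ L * K ^ 3 := by positivity
  have hKK : K ≤ K ^ 3 := by linarith only [mul_nonneg (by linarith : (0 : ℝ) ≤ K) (by nlinarith : (0 : ℝ) ≤ K ^ 2 - 1), hC, ht0, hK, ht1, hp0, hp3]
  have hLK : L * K ≤ L * K ^ 3 := mul_le_mul_of_nonneg_left hKK (by linarith only [ht0, hL, ht1])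
  have hLK0 : 0 ≤ L * K := by positivity
  -- the terms with O
  have o1 : C * (ε ^ 2 * S * O) ≤ 1 / 1000 * (l * O) := by
    have e : C * (ε ^ 2 * S * O) = (C * p) * (l * O) := by rw [hεS]; ring
    rw [e]
    exact mul_le_mul_of_nonneg_right hp3 hlO
  -- the rate of Q
  have q1 : C * ε ^ 2 * S * Y ≤ C ^ 2 * p * l * (S * Gb + J * t) := by
    have h1 : 0 ≤ C * ε ^ 2 * S := by positivity
    have h2 := mul_le_mul_of_nonneg_left hg h1
    have h3 : C * ε ^ 2 * S * (C * (S * Gb + J * t)) = C ^ 2 * (ε ^ 2 * S) * (S * Gb + J * t) := by ring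
    rw [h3, hεS] at h2
    linarith only [h2]
  have q2 : l * (C * ε ^ 2 * S * (Y + S * J + S * G)) ≤ 1 / 1000 * Gb + 2 / 1000 * J + G := by
    have h1 : l * (C * ε ^ 2 * S * Y) ≤ l * (C ^ 2 * p * l * (S * Gb + J * t)) :=
      mul_le_mul_of_nonneg_left q1 hl0.le
    have h2 : l * (C ^ 2 * p * l * (S * Gb + J * t)) = C ^ 2 * p * ((l * l) * S * Gb + (l * l) * t * J) := by ring
    rw [h2, hlt, hts, one_mul] at h1
    have h3 : t * t ≤ 1 := by nlinarith only [hC, hS, hts, ht0, ht1, hp0, hp3]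
    have h4 : t * t * J ≤ 1 * J := mul_le_mul_of_nonneg_right h3 hJ
    have h5 : C ^ 2 * p * (Gb + t * t * J) ≤ 1 / 1000 * (Gb + J) := by
      have h6 : C ^ 2 * p * (Gb + t * t * J) ≤ C ^ 2 * p * (Gb + J) :=
        mul_le_mul_of_nonneg_left (by linarith only [h4]) (by positivity)
      exact h6.trans (mul_le_mul_of_nonneg_right hp2 (by positivity))
    have h7 : l * (C * ε ^ 2 * S * (S * J + S * G)) = C * p * ((l * l) * S) * (J + G) := by
      have : l * (C * ε ^ 2 * S * (S * J + S * G)) = l * C * (ε ^ 2 * S) * S * (J + G) := by ring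
      rw [this, hεS]
      ring
    rw [hlt, hts, mul_one] at h7
    have h8 : C * p * (J + G) ≤ 1 / 1000 * (J + G) := mul_le_mul_of_nonneg_right hp3 (by positivity)
    have h9 : l * (C * ε ^ 2 * S * (Y + S * J + S * G)) =
        l * (C * ε ^ 2 * S * Y) + l * (C * ε ^ 2 * S * (S * J + S * G)) := by ring
    rw [h9, h7]
    linarith only [hG, h1, h5, h8]
  have hA0 : 0 ≤ A := (sq_nonneg K).trans hA
  have hB0 : 0 ≤ B := hLK3.trans hAB
  have hAG : 0 ≤ A * G := by positivity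
  have q3 : l * (C * A * G) ≤ C ^ 2 * (A * G) := by
    have h1 : 0 ≤ C * A * G := by positivity
    have h2 : l * (C * A * G) ≤ 1 * (C * A * G) := mul_le_mul_of_nonneg_right hl1 h1
    have h3 : C * (A * G) ≤ C ^ 2 * (A * G) := mul_le_mul_of_nonneg_right hCC (by positivity)
    linarith only [h2, h3]
  have q4 : l * (C * B) ≤ C ^ 2 * B := by
    have h1 : 0 ≤ C * B := by positivity
    have h2 : l * (C * B) ≤ 1 * (C * B) := mul_le_mul_of_nonneg_right hl1 h1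
    have h3 : C * B ≤ C ^ 2 * B := mul_le_mul_of_nonneg_right hCC hB0
    linarith only [h2, h3]
  have e4 : l * rq ≤ - (1 / 4) * (l * O) + (1 / 1000 * Gb + 2 / 1000 * J + G) + C ^ 2 * (A * G) +
      C ^ 2 * B := by
    have h1 := mul_le_mul_of_nonneg_left hq hl0.le
    have h2 : l * (- (1 / 4) * O + C * ε ^ 2 * S * (Y + S * J + S * G) + C * A * G + C * B)
        = - (1 / 4) * (l * O) + l * (C * ε ^ 2 * S * (Y + S * J + S * G)) + l * (C * A * G) + l * (C * B) := by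
      ring
    rw [h2] at h1
    linarith only [q2, q3, q4, h1]
  have hKAG : C ^ 2 * (K ^ 2 * G) ≤ C ^ 2 * (A * G) :=
    mul_le_mul_of_nonneg_left (mul_le_mul_of_nonneg_right hA hG) (by positivity)
  have hLKB : C ^ 2 * (L * K ^ 3) ≤ C ^ 2 * B := mul_le_mul_of_nonneg_left hAB (by positivity)
  -- G
  have hGK : 0 ≤ K ^ 2 * G := by positivity
  have hKK2 : K ≤ K ^ 2 := by nlinarith only [hC, hK, hp0, hp3]
  have gK : K * G ≤ K ^ 2 * G := mul_le_mul_of_nonneg_right hKK2 hG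
  have gG : G ≤ 1 / 2 * (K ^ 2 * G) := by
    have := mul_le_mul_of_nonneg_right hK hG
    linarith only [gK, this]
  have g2 : C ^ 2 * G ≤ C ^ 2 * (K ^ 2 * G) := mul_le_mul_of_nonneg_left (by linarith only [hGK, gG]) (by positivity)
  have g3 : C * G ≤ C ^ 2 * (K ^ 2 * G) := by
    have h1 : C * G ≤ C ^ 2 * G := mul_le_mul_of_nonneg_right hCC hG
    linarith only [g2, h1]
  have g4 : C * (K ^ 2 * G) ≤ C ^ 2 * (K ^ 2 * G) := mul_le_mul_of_nonneg_right hCC hGK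
  have g6 : C * (K * G) ≤ C ^ 2 * (K ^ 2 * G) := by
    have h1 : C * (K * G) ≤ C * (K ^ 2 * G) := mul_le_mul_of_nonneg_left gK hC0.le
    linarith only [g4, h1]
  have g5 : G ≤ C ^ 2 * (K ^ 2 * G) := by
    have : 1 * (K ^ 2 * G) ≤ C ^ 2 * (K ^ 2 * G) := mul_le_mul_of_nonneg_right hC2 hGK
    linarith only [hGK, gG, this]
  have l1 : C * (ε ^ 2 * L * K) ≤ C ^ 2 * (L * K ^ 3) := by
    have h1 : ε ^ 2 * (L * K) ≤ 1 * (L * K) := mul_le_mul_of_nonneg_right hε2 hLK0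
    have h2 : C * (ε ^ 2 * (L * K)) ≤ C * (L * K ^ 3) := mul_le_mul_of_nonneg_left (by linarith only [hLK, h1]) hC0.le
    have h3 : C * (L * K ^ 3) ≤ C ^ 2 * (L * K ^ 3) := mul_le_mul_of_nonneg_right hCC hLK3
    have h4 : C * (ε ^ 2 * L * K) = C * (ε ^ 2 * (L * K)) := by ring
    rw [h4]
    linarith only [h2, h3]
  -- F
  have f1 : 1 / (1000 * C ^ 2) * t * F ≤ 1 / 8 * (J + B2 + Gb + l * O) + G := by
    have h1 : t * F ≤ C * (J + B2 + Gb + l * O) + 2 * C * (t * G) := by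
      have h2 := mul_le_mul_of_nonneg_left hh ht0.le
      have h3 : t * (C * S * (J + B2 + Gb + l * O) + 2 * C * G) =
          C * ((t * S) * (J + B2 + Gb + l * O)) + 2 * C * (t * G) := by ring
      rw [h3, hts, one_mul] at h2
      exact h2
    have h2 : 0 ≤ t * F := by positivity
    have h3 : 1 / (1000 * C ^ 2) ≤ 1 / (8 * C) := by
      refine one_div_le_one_div_of_le (by positivity) ?_
      linarith only [ht0, hC2, hCC, ht1]
    calc 1 / (1000 * C ^ 2) * t * F = 1 / (1000 * C ^ 2) * (t * F) := by ring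
      _ ≤ 1 / (8 * C) * (t * F) := mul_le_mul_of_nonneg_right h3 h2
      _ ≤ 1 / (8 * C) * (C * (J + B2 + Gb + l * O) + 2 * C * (t * G)) :=
          mul_le_mul_of_nonneg_left h1 (by positivity)
      _ = 1 / 8 * (J + B2 + Gb + l * O) + 1 / 4 * (t * G) := by
          field_simp
          ring
      _ ≤ 1 / 8 * (J + B2 + Gb + l * O) + G := by
          have : t * G ≤ 1 / 20 * G := mul_le_mul_of_nonneg_right ht1 hG
          linarith only [hG, this]
  have m1 : C * (ε ^ 2 * S * O + K ^ 2 * G) = C * (ε ^ 2 * S * O) + C * (K ^ 2 * G) := by ring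
  have m2 : C * (ε ^ 2 * S * O + (1 + K) * G + ε ^ 2 * L * K) =
      C * (ε ^ 2 * S * O) + (C * G + C * (K * G)) + C * (ε ^ 2 * L * K) := by ring
  rw [m1] at ha
  rw [m2] at hc
  have n1 : 0 ≤ C ^ 2 * (K ^ 2 * G) := by positivity
  have n2 : 0 ≤ C ^ 2 * (L * K ^ 3) := by positivity
  have n3 : 1000 * C ^ 2 * (A * G + B) = 1000 * (C ^ 2 * (A * G)) + 1000 * (C ^ 2 * B) := by ring
  rw [n3]
  linarith

/-- The continuous bound of the rate `RQ`. -/
noncomputable def hQ (C ε K κ L a : ℝ) (v : E3 → E3) : ℝ :=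
  - (1 / 4) * DO L a v + C * ε ^ 2 * Sc κ * (C * (Sc κ * GB (1 / Sc κ) L a v + DJ L a v * (1 / Sc κ)) + Sc κ * DJ L a v +
    Sc κ * GG L a v) + C * (K * L) ^ 2 * GG L a v + C * (K * L) ^ 3

theorem cq_rate (RQ : ℝ → ℝ → ℝ → (E3 → E3) → ℝ) (h1a : P1a) (hq : QRate RQ) (h1c : P1c) (h1g : P1g) (h1h : P1h) :
    ∃ C₀ C : ℝ, 1 ≤ C₀ ∧ 1 ≤ C ∧ ∀ (ε K κ L a : ℝ) (v : E3 → E3), Sl ε K κ v → C * K ≤ L → C ≤ K → (K * L) ^ 4 ≤ κ →
    C * (ε ^ 2 * Sc κ * √(Sc κ)) ≤ 1 → (∀ b, K * L * NO L b v ≤ κ) →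
    RQ κ L a v ≤ hQ C₀ ε K κ L a v ∧
    RJ L a v / 2 + RB (1 / Sc κ) L a v / 2 + (1 / √(Sc κ)) * hQ C₀ ε K κ L a v ≤
      - (1 / (C * Sc κ)) * FF (1 / Sc κ) (1 / √(Sc κ)) L a v - (1 / (16 * √(Sc κ))) * DO L a v +
        C * ((K * L) ^ 2 * GG L a v + (K * L) ^ 3) := by
  obtain ⟨Ca, hCa, Ha⟩ := h1a
  obtain ⟨Cb, hCb, Hb⟩ := hq
  obtain ⟨Cc, hCc, Hc⟩ := h1c
  obtain ⟨Cg, hCg, Hg⟩ := h1g
  obtain ⟨Ch, hCh, Hh⟩ := h1h
  obtain ⟨C, hCdef⟩ : ∃ C, C = Ca + Cb + Cc + Cg + Ch := ⟨_, rfl⟩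
  have hC : 1 ≤ C := by linarith
  have hC2 : 1 ≤ C ^ 2 := one_le_pow₀ hC
  have hCC : C ≤ 1000 * C ^ 2 := by nlinarith only [hCa, hCb, hCc, hCg, hCh, hCdef, hC2]
  refine ⟨C, 1000 * C ^ 2, hC, by linarith, ?_⟩
  intro ε K κ L a v hv hL hCK hLκ hp hNO
  have hS := sc_ge hv.k1
  obtain ⟨S, hSdef⟩ : ∃ S, S = Sc κ := ⟨_, rfl⟩
  have hε := hv.e0
  have hε1 := hv.e1
  have hK := hv.K2
  have hK0 : (0 : ℝ) ≤ K := by linarith
  have hL' : ∀ D : ℝ, D ≤ C → D * K ≤ L := fun D hD =>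
    (mul_le_mul_of_nonneg_right (hD.trans hCC) hK0).trans hL
  have hL1 : ∀ D : ℝ, 1 ≤ D → D ≤ C → D ≤ L := fun D hD1 hD => by
    have := hL' D hD
    nlinarith only [hC2, hCC, hL, hCK, hD]
  have hLge : 1 ≤ L := by linarith [hL1 C hC le_rfl]
  have hL0 : 0 ≤ L := by linarith
  have hS' : 20 ≤ S := by rw [hSdef]; exact hS
  have hS0 : 0 < S := by linarith
  have hr0 : 0 < √S := Real.sqrt_pos.2 hS0
  have hrr : √S * √S = S := Real.mul_self_sqrt hS0.le
  have hr1 : 1 ≤ √S := by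
    rw [Real.one_le_sqrt]
    linarith
  have ht0 : 0 < 1 / S := by positivity
  have hts : 1 / S * S = 1 := by field_simp
  have hl0 : 0 < 1 / √S := by positivity
  have hl1 : 1 / √S ≤ 1 := by
    rw [div_le_one hr0]; exact hr1
  have hll : 1 / √S * (1 / √S) = 1 / S := by
    rw [one_div_mul_one_div, hrr]
  have hlr : 1 / √S * √S = 1 := by field_simp
  have ht1 : 1 / S ≤ 1 := by
    rw [div_le_one hS0]; linarith
  rw [← hSdef] at hp
  have hp0 : 0 ≤ ε ^ 2 * S * √S := by positivity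
  have hεS : ε ^ 2 * S ≤ 1 := by
    have h1 : ε ^ 2 * S * 1 ≤ ε ^ 2 * S * √S := mul_le_mul_of_nonneg_left hr1 (by positivity)
    have h2 : 1 * (ε ^ 2 * S * √S) ≤ 1000 * C ^ 2 * (ε ^ 2 * S * √S) :=
      mul_le_mul_of_nonneg_right (by linarith) hp0
    linarith
  have hJ := DJ_nn L a v
  have hO := DO_nn L a v
  have hG := GG_nn L a v
  have hB := DB2_nn (θ := 1 / Sc κ) (by rw [← hSdef]; exact ht0) L a v
  have hGb := GB_nn (θ := 1 / Sc κ) (by rw [← hSdef]; exact ht0) (by rw [← hSdef]; exact ht1) L a v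
  have hF : 0 ≤ FF (1 / Sc κ) (1 / √(Sc κ)) L a v := by
    unfold FF
    have h1 := NJ_nn L a v
    have h2 := BB_nn (θ := 1 / Sc κ) (by rw [← hSdef]; exact ht0) L a v
    have h3 := NO_nn L a v
    have h4 : 0 ≤ 1 / √(Sc κ) * NO L a v := mul_nonneg (by rw [← hSdef]; exact hl0.le) h3
    linarith
  have ha := Ha ε K κ L a v hv (hL' Ca (by linarith)) (by rw [← hSdef]; exact hεS)
  have hb := Hb ε K κ L a v hv (hL' Cb (by linarith)) (by linarith) hLκ (by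
    rw [← hSdef]
    have h1 : Cb * (ε ^ 2 * S * √S) ≤ 1000 * C ^ 2 * (ε ^ 2 * S * √S) :=
      mul_le_mul_of_nonneg_right (by linarith only [hCa, hCc, hCg, hCh, hCdef, hCC]) hp0
    linarith) hNO
  have hc := Hc ε K κ L a v hv (hL' Cc (by linarith)) (by rw [← hSdef]; exact hεS)
  have hg := Hg ε K κ L a v hv (hL1 Cg hCg (by linarith only [hCa, hCb, hCc, hCh, hCdef]))
  have hh := Hh ε K κ L a (1 / √(Sc κ)) v hv (hL1 Ch hCh (by linarith only [hCa, hCb, hCc, hCg, hCdef])) (by rw [← hSdef]; exact hl0.le)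
  unfold hQ
  rw [← hSdef] at ha hb hc hg hh hB hGb hF ⊢
  have hLK : 0 ≤ L * K := by positivity
  have hY : 0 ≤ S * GB (1 / S) L a v + DJ L a v * (1 / S) := by positivity
  have hg' : YY κ L a v ≤ C * (S * GB (1 / S) L a v + DJ L a v * (1 / S)) := by
    have h2 : DJ L a v / S = DJ L a v * (1 / S) := by rw [div_eq_mul_one_div]
    rw [h2] at hg
    exact hg.trans (mul_le_mul_of_nonneg_right (by linarith only [hCa, hCb, hCc, hCh, hCdef]) hY)
  have hb' : RQ κ L a v ≤ - (1 / 4) * DO L a v + C * ε ^ 2 * S * (C * (S * GB (1 / S) L a v + DJ L a v * (1 / S)) +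
      S * DJ L a v + S * GG L a v) + C * (K * L) ^ 2 * GG L a v + C * (K * L) ^ 3 := by
    refine hb.trans ?_
    have hY0 := YY_nn κ L a v
    have e1 : YY κ L a v + S * DJ L a v + S * GG L a v ≤
        C * (S * GB (1 / S) L a v + DJ L a v * (1 / S)) + S * DJ L a v + S * GG L a v := by linarith only [hg']
    have e0 : 0 ≤ YY κ L a v + S * DJ L a v + S * GG L a v := by positivity
    have e2 : Cb * ε ^ 2 * S * (YY κ L a v + S * DJ L a v + S * GG L a v) ≤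
        C * ε ^ 2 * S * (C * (S * GB (1 / S) L a v + DJ L a v * (1 / S)) + S * DJ L a v + S * GG L a v) := by
      refine mul_le_mul ?_ e1 e0 (by positivity)
      have : Cb * (ε ^ 2 * S) ≤ C * (ε ^ 2 * S) := mul_le_mul_of_nonneg_right (by linarith only [hCa, hCc, hCg, hCh, hCdef]) (by positivity)
      linarith only [this]
    have e3 : Cb * (K * L) ^ 2 * GG L a v ≤ C * (K * L) ^ 2 * GG L a v :=
      mul_le_mul_of_nonneg_right (mul_le_mul_of_nonneg_right (by linarith only [hCa, hCc, hCg, hCh, hCdef]) (sq_nonneg _)) hG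
    have e4 : Cb * (K * L) ^ 3 ≤ C * (K * L) ^ 3 :=
      mul_le_mul_of_nonneg_right (by linarith only [hCa, hCc, hCg, hCh, hCdef]) (by positivity)
    linarith only [e2, e3, e4]
  refine ⟨hb', ?_⟩
  have hA : K ^ 2 ≤ (K * L) ^ 2 := by
    refine pow_le_pow_left₀ hK0 ?_ 2
    exact le_mul_of_one_le_right hK0 hLge
  have hAB : L * K ^ 3 ≤ (K * L) ^ 3 := by
    have h1 : L ^ 1 ≤ L ^ 3 := pow_le_pow_right₀ hLge (by norm_num)
    have h2 := mul_le_mul_of_nonneg_left h1 (by positivity : 0 ≤ K ^ 3)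
    rw [mul_pow]
    linarith only [h2]
  have key := C2_alg (C := C) (S := S) (t := 1 / S) (l := 1 / √S) (r := √S) (ε := ε) (K := K) (L := L)
    (J := DJ L a v) (O := DO L a v)
    (G := GG L a v) (B2 := DB2 (1 / S) L a v) (Gb := GB (1 / S) L a v)
    (Y := C * (S * GB (1 / S) L a v + DJ L a v * (1 / S)))
    (F := FF (1 / S) (1 / √S) L a v) (rj := RJ L a v / 2) (rb := RB (1 / S) L a v / 2)
    (rq := - (1 / 4) * DO L a v + C * ε ^ 2 * S * (C * (S * GB (1 / S) L a v + DJ L a v * (1 / S)) +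
      S * DJ L a v + S * GG L a v) + C * (K * L) ^ 2 * GG L a v + C * (K * L) ^ 3)
    (A := (K * L) ^ 2) (B := (K * L) ^ 3) hC hA hAB hS' hts ht0 hl0 hll hlr hε hε1 hK hLge hp hJ hO hG hB hGb hF ?_ le_rfl ?_ le_rfl ?_
  · refine key.trans (le_of_eq ?_)
    have e1 : 1 / (1000 * C ^ 2 * S) = 1 / (1000 * C ^ 2) * (1 / S) := by
      rw [one_div_mul_one_div]
    have e2 : 1 / (16 * √S) = 1 / 16 * (1 / √S) := by
      rw [one_div_mul_one_div]
    rw [e1, e2]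
  · refine ha.trans ?_
    have : 0 ≤ ε ^ 2 * S * DO L a v + K ^ 2 * GG L a v := by positivity
    have := mul_le_mul_of_nonneg_right (show Ca ≤ C by linarith only [hCb, hCc, hCg, hCh, hCdef]) this
    linarith only [this]
  · refine hc.trans ?_
    have : 0 ≤ ε ^ 2 * S * DO L a v + (1 + K) * GG L a v + ε ^ 2 * L * K := by positivity
    have := mul_le_mul_of_nonneg_right (show Cc ≤ C by linarith only [hCa, hCb, hCg, hCh, hCdef]) this
    linarith only [this]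
  · refine hh.trans ?_
    have h1 : 0 ≤ D3 (1 / S) L a v + 1 / √S * DO L a v := by
      unfold D3
      positivity
    have h2 : Ch * S * (D3 (1 / S) L a v + 1 / √S * DO L a v) ≤ C * S * (D3 (1 / S) L a v + 1 / √S * DO L a v) :=
      mul_le_mul_of_nonneg_right (mul_le_mul_of_nonneg_right (by linarith only [hCa, hCb, hCc, hCg, hCdef]) hS0.le) h1
    have h3 : Ch * (1 + 1 / √S) * GG L a v ≤ 2 * C * GG L a v := by
      refine mul_le_mul_of_nonneg_right ?_ hG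
      nlinarith only [hCa, hCb, hCc, hCg, hCh, hCdef, hl1]
    unfold D3 at h2 ⊢
    linarith only [h2, h3]

end Pool.Agent.H67.TQ
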