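import Pool.Agent.H67.TQ.C1
import Pool.Agent.H67.TQ.C2
import Pool.Agent.H94.EP.CoB

/-! MP_09540e_TQ, core: the energy estimate. -/

set_option autoImplicit false

open Set Filter Topology MeasureTheory
open scoped ContDiff

namespace Pool.Agent.H67.TQ

open Pool.Agent.H16 Pool.Agent.H87.NS Pool.Agent.H72.CC Pool.Agent.H16.TU Pool.Agent.H94.EP

/-- The constants. -/
theorem C5_num {C₁ C₂ C₃ S r W X y0 : ℝ} (h1 : 1 ≤ C₁) (h2 : 1 ≤ C₂) (h3 : 1 ≤ C₃)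
    (hS : 20 ≤ S) (hr0 : 0 < r) (hrS : r ≤ S) (hW0 : 0 ≤ W)
    (hX : 1 / (16 * r) * X ≤ y0 + 3 * (2 * C₁ * C₂ * W) / (1 / (C₁ * S)))
    (hy : y0 ≤ C₃ * W) :
    X ≤ 112 * C₁ ^ 2 * C₂ * C₃ * S ^ 2 * W := by
  have hS0 : 0 < S := by linarith
  have hC0 : 0 < C₁ := by linarith
  have e1 : 3 * (2 * C₁ * C₂ * W) / (1 / (C₁ * S)) = 6 * C₁ ^ 2 * C₂ * S * W := by
    field_simp
    ring
  rw [e1] at hX
  have hC1 : 1 ≤ C₁ ^ 2 := one_le_pow₀ h1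
  obtain ⟨P, hP⟩ : ∃ P, P = C₁ ^ 2 * C₂ * C₃ := ⟨_, rfl⟩
  have hP3 : C₃ ≤ P := by
    rw [hP]
    have h5 : 1 ≤ C₁ ^ 2 * C₂ := by nlinarith only [h2, hC1]
    nlinarith only [h3, h5]
  have hP2 : C₁ ^ 2 * C₂ ≤ P := by
    rw [hP]
    have h5 : 0 ≤ C₁ ^ 2 * C₂ := by positivity
    nlinarith only [h3, h5]
  have hP0 : 0 ≤ P := by linarith
  have hS1 : 1 ≤ S := by linarith
  have b1 : C₃ * W ≤ P * S * W := by
    have h5 : C₃ * 1 ≤ P * S := mul_le_mul hP3 hS1 zero_le_one hP0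
    have h6 := mul_le_mul_of_nonneg_right h5 hW0
    linarith
  have b2 : 6 * C₁ ^ 2 * C₂ * S * W ≤ 6 * (P * S * W) := by
    have h5 : C₁ ^ 2 * C₂ * (S * W) ≤ P * (S * W) := mul_le_mul_of_nonneg_right hP2 (by positivity)
    linarith
  have hPSW : 0 ≤ P * S * W := by positivity
  have e2 : X ≤ 16 * r * (7 * (P * S * W)) := by
    have h := mul_le_mul_of_nonneg_left (hX.trans (add_le_add_left hy _)) (by positivity : 0 ≤ 16 * r)
    have e : 16 * r * (1 / (16 * r) * X) = X := by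
      field_simp
    rw [e] at h
    have h7 : 16 * r * (C₃ * W + 6 * C₁ ^ 2 * C₂ * S * W) ≤ 16 * r * (7 * (P * S * W)) :=
      mul_le_mul_of_nonneg_left (by linarith) (by positivity)
    linarith
  have e3 : 16 * r * (7 * (P * S * W)) ≤ 16 * S * (7 * (P * S * W)) :=
    mul_le_mul_of_nonneg_right (by linarith) (by positivity)
  have a5 : 112 * C₁ ^ 2 * C₂ * C₃ * S ^ 2 * W = 16 * S * (7 * (P * S * W)) := by
    rw [hP]
    ring
  rw [a5]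
  linarith

theorem cq_energy (PS RQ : ℝ → ℝ → ℝ → (E3 → E3) → ℝ) (dl : ℝ) (h1a : P1a) (hq : QRate RQ) (h1c : P1c) (h1g : P1g)
    (h1h : P1h) (h1n : P1n) (h2c : P2c) (hpos : QPos PS dl) (hin : QIn PS RQ dl) (hcont : QCont PS) :
    ∃ C : ℝ, 1 ≤ C ∧ ∀ (T : ℝ) (u : ℝ → E3 → E3) (p : ℝ → E3 → ℝ), IsHInfAxisymNS T u p →
    ∀ (ε K κ L t₀ t₁ : ℝ), 0 ≤ t₀ → t₀ ≤ t₁ → t₁ < T → C * K ≤ L → C ≤ K → (K * L) ^ 4 ≤ κ →
    C * (ε ^ 2 * Sc κ * √(Sc κ)) ≤ 1 →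
    (∀ t ∈ Icc t₀ t₁, Sl ε K κ (u t)) → (∀ t ∈ Icc t₀ t₁, ∀ b, K * L * NO L b (u t) ≤ κ) →
    (∀ s t : ℝ, t₀ ≤ s → s ≤ t → t ≤ t₁ → t ≤ s + 1 → ∀ z, ∫ r in s..t, ∫ x in Metric.ball (axp z) 1, gv (u r) x ≤ K) →
    ∀ a, NJ L a (u t₀) + NO L a (u t₀) ≤ (K * L) ^ 3 →
    (∀ s t : ℝ, t₀ ≤ s → s ≤ t → t ≤ t₁ → t ≤ s + 1 →
      ∫ r in s..t, (DO L a (u r) + GG L a (u r)) ≤ C * Sc κ ^ 2 * (K * L) ^ 3) ∧
    ∀ t ∈ Icc t₀ t₁, NO L a (u t) ≤ C * Sc κ ^ 2 * (K * L) ^ 3 := by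
  obtain ⟨C₀, C₁, hC₀, hC₁, H₁⟩ := cq_rate RQ h1a hq h1c h1g h1h
  obtain ⟨C₂, hC₂, H₂⟩ := gg_win
  obtain ⟨C₃, hC₃, H₃⟩ := h1n
  have hq1 : 1 ≤ C₁ ^ 2 := one_le_pow₀ hC₁
  have hq2 : C₁ ≤ C₁ ^ 2 := by nlinarith
  have hq3 : C₁ ^ 2 ≤ C₁ ^ 2 * C₂ := by nlinarith
  have hq4 : C₁ ^ 2 * C₂ ≤ C₁ ^ 2 * C₂ * C₃ := by nlinarith
  have hq5 : C₂ ≤ C₁ ^ 2 * C₂ * C₃ := by nlinarith
  have hCC : C₁ ≤ 200 * C₁ ^ 2 * C₂ * C₃ := by
    have : 200 * C₁ ^ 2 * C₂ * C₃ = 200 * (C₁ ^ 2 * C₂ * C₃) := by ring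
    rw [this]
    linarith
  refine ⟨200 * C₁ ^ 2 * C₂ * C₃, by linarith, ?_⟩
  intro T u p hNS ε K κ L t₀ t₁ h0 h01 h1T hLC hCK hLκ hεC hSl hNO hen a hinit
  have hSl0 := hSl t₀ ⟨le_rfl, h01⟩
  have hK : 2 ≤ K := hSl0.K2
  have hκ : 1 ≤ κ := hSl0.k1
  have hε : 0 < ε := hSl0.e0
  have hS : 20 ≤ Sc κ := sc_ge hκ
  have hS0 : 0 < Sc κ := by linarith
  have hr0 : 0 < √(Sc κ) := Real.sqrt_pos.2 hS0
  have hrr : √(Sc κ) * √(Sc κ) = Sc κ := Real.mul_self_sqrt hS0.le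
  have hr1 : 1 ≤ √(Sc κ) := by
    rw [Real.one_le_sqrt]
    linarith
  have hrS : √(Sc κ) ≤ Sc κ := by nlinarith only [hr0, hrr, hr1]
  have hC10 : 0 < C₁ := by linarith
  have hL1 : C₁ * K ≤ L := by
    have : C₁ * K ≤ 200 * C₁ ^ 2 * C₂ * C₃ * K := mul_le_mul_of_nonneg_right hCC (by linarith)
    linarith
  have hL : 1 ≤ L := by nlinarith only [hC₁, hq1, hq3, hq4, hCK, hL1]
  have hε1 : C₁ * (ε ^ 2 * Sc κ * √(Sc κ)) ≤ 1 := by
    have : C₁ * (ε ^ 2 * Sc κ * √(Sc κ)) ≤ 200 * C₁ ^ 2 * C₂ * C₃ * (ε ^ 2 * Sc κ * √(Sc κ)) :=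
      mul_le_mul_of_nonneg_right hCC (by positivity)
    linarith
  have hθ : 0 < 1 / Sc κ := by positivity
  have hθ1 : 1 / Sc κ ≤ 1 / 2 := one_div_le_one_div_of_le (by norm_num) (by linarith)
  have hl : 0 < 1 / √(Sc κ) := by positivity
  have hl1 : 1 / √(Sc κ) ≤ 1 := by
    rw [div_le_one hr0]; exact hr1
  have hsub : Icc t₀ t₁ ⊆ Ico 0 T := fun r hr => ⟨h0.trans hr.1, lt_of_le_of_lt hr.2 h1T⟩
  obtain ⟨cDJ, cDO, cGG, cDB, cGB, cFF, cRJ, cRO, cRB⟩ := h2c T u p hNS (1 / Sc κ) (1 / √(Sc κ)) L a hθ hθ1 hL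
  have kDJ := cDJ.mono hsub
  have kGB := cGB.mono hsub
  have kDO := cDO.mono hsub
  have kGG := cGG.mono hsub
  have kRJ := cRJ.mono hsub
  have kRB := cRB.mono hsub
  have kFF := cFF.mono hsub
  have kPS := (hcont T u p hNS κ L a hκ hL).mono hsub
  have kFQ : ContinuousOn (fun r => FQ PS dl (1 / Sc κ) (1 / √(Sc κ)) κ L a (u r)) (Icc t₀ t₁) := by
    unfold FQ
    exact kFF.sub (continuousOn_const.mul (continuousOn_const.mul kPS))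
  have kh : ContinuousOn (fun r => hQ C₀ ε K κ L a (u r)) (Icc t₀ t₁) := by
    unfold hQ
    exact (((continuousOn_const.mul kDO).add (continuousOn_const.mul (((continuousOn_const.mul
      ((continuousOn_const.mul kGB).add (kDJ.mul continuousOn_const))).add (continuousOn_const.mul kDJ)).add
      (continuousOn_const.mul kGG)))).add (continuousOn_const.mul kGG)).add continuousOn_const
  have hgc : ContinuousOn (fun r => C₁ * ((K * L) ^ 2 * GG L a (u r) + (K * L) ^ 3)) (Icc t₀ t₁) :=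
    continuousOn_const.mul ((continuousOn_const.mul kGG).add continuousOn_const)
  have hdc : ContinuousOn (fun r => 1 / (16 * √(Sc κ)) * DO L a (u r)) (Icc t₀ t₁) :=
    continuousOn_const.mul kDO
  have hα : 0 < 1 / (C₁ * Sc κ) := by positivity
  have hα1 : 1 / (C₁ * Sc κ) ≤ 1 := by
    rw [div_le_one (by positivity)]
    nlinarith only [hC₁, hS, hθ, hθ1]
  have hM : 0 ≤ 2 * C₁ * C₂ * (K * L) ^ 3 := by positivity
  have hSub : ∀ r ∈ Icc t₀ t₁, Vs (u r) := fun r hr => (hSl r hr).vs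
  -- the functional
  have hFle : ∀ r ∈ Icc t₀ t₁, FQ PS dl (1 / Sc κ) (1 / √(Sc κ)) κ L a (u r) ≤ FF (1 / Sc κ) (1 / √(Sc κ)) L a (u r) := by
    intro r hr
    unfold FQ
    have := mul_nonneg hl.le (hpos κ L a (u r) (hSub r hr) hκ hL).1
    linarith
  have hFge : ∀ r ∈ Icc t₀ t₁, 1 / √(Sc κ) * NO L a (u r) / 4 ≤ FQ PS dl (1 / Sc κ) (1 / √(Sc κ)) κ L a (u r) := by
    intro r hr
    unfold FQ FF
    have e0 := mul_le_mul_of_nonneg_left (hpos κ L a (u r) (hSub r hr) hκ hL).2 hl.le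
    have e1 := NJ_nn L a (u r)
    have e2 := BB_nn hθ L a (u r)
    have e3 : 1 / √(Sc κ) * (NO L a (u r) / 4) = 1 / √(Sc κ) * NO L a (u r) / 4 := by ring
    rw [e3] at e0
    linarith
  have hF0 : ∀ r ∈ Icc t₀ t₁, 0 ≤ FQ PS dl (1 / Sc κ) (1 / √(Sc κ)) κ L a (u r) := by
    intro r hr
    have e3 : 0 ≤ 1 / √(Sc κ) * NO L a (u r) := mul_nonneg hl.le (NO_nn L a (u r))
    linarith [hFge r hr]
  have hd0 : ∀ r ∈ Icc t₀ t₁, 0 ≤ 1 / (16 * √(Sc κ)) * DO L a (u r) := fun r _ =>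
    mul_nonneg (by positivity) (DO_nn L a (u r))
  have hineq : ∀ s t : ℝ, t₀ ≤ s → s ≤ t → t ≤ t₁ →
      FQ PS dl (1 / Sc κ) (1 / √(Sc κ)) κ L a (u t) ≤ FQ PS dl (1 / Sc κ) (1 / √(Sc κ)) κ L a (u s) +
      ∫ r in s..t, (C₁ * ((K * L) ^ 2 * GG L a (u r) + (K * L) ^ 3) -
        1 / (C₁ * Sc κ) * FQ PS dl (1 / Sc κ) (1 / √(Sc κ)) κ L a (u r) - 1 / (16 * √(Sc κ)) * DO L a (u r)) := by
    intro s t h3 h4 h5
    have hss : Icc s t ⊆ Icc t₀ t₁ := Icc_subset_Icc h3 h5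
    have e1 := hin T u p hNS (1 / Sc κ) (1 / √(Sc κ)) κ L a hθ hθ1 hl.le hκ hL s t (h0.trans h3) h4
      (lt_of_le_of_lt h5 h1T) (fun r => hQ C₀ ε K κ L a (u r)) (kh.mono hss)
      (fun r hr => (H₁ ε K κ L a (u r) (hSl r (hss hr)) hL1 (by linarith) hLκ hε1 (hNO r (hss hr))).1)
    refine e1.trans (add_le_add le_rfl ?_)
    refine intervalIntegral.integral_mono_on h4 ?_ ?_ ?_
    · refine ContinuousOn.intervalIntegrable_of_Icc h4 ?_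
      exact (((kRJ.div_const 2).add (kRB.div_const 2)).add
        (continuousOn_const.mul kh)).mono hss
    · refine ContinuousOn.intervalIntegrable_of_Icc h4 ?_
      exact ((hgc.sub (continuousOn_const.mul kFQ)).sub hdc).mono hss
    · intro r hr
      have e2 := (H₁ ε K κ L a (u r) (hSl r (hss hr)) hL1 (by linarith) hLκ hε1 (hNO r (hss hr))).2
      have e3 := mul_le_mul_of_nonneg_left (hFle r (hss hr)) hα.le
      linarith only [e2, e3]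
  have hwin : ∀ s t : ℝ, t₀ ≤ s → s ≤ t → t ≤ t₁ → t ≤ s + 1 →
      ∫ r in s..t, C₁ * ((K * L) ^ 2 * GG L a (u r) + (K * L) ^ 3) ≤ 2 * C₁ * C₂ * (K * L) ^ 3 := by
    intro s t h3 h4 h5 h6
    have hG := H₂ T u p hNS K L a s t hL (h0.trans h3) h4 (lt_of_le_of_lt h5 h1T)
      (hen s t h3 h4 h5 h6)
    have i2 : IntervalIntegrable (fun r => GG L a (u r)) volume s t :=
      (kGG.mono (Icc_subset_Icc h3 h5)).intervalIntegrable_of_Icc h4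
    have e1 : ∫ r in s..t, C₁ * ((K * L) ^ 2 * GG L a (u r) + (K * L) ^ 3) =
        C₁ * ((K * L) ^ 2 * (∫ r in s..t, GG L a (u r)) + (t - s) * (K * L) ^ 3) := by
      rw [intervalIntegral.integral_const_mul, intervalIntegral.integral_add (i2.const_mul _)
        intervalIntegrable_const, intervalIntegral.integral_const_mul,
        intervalIntegral.integral_const, smul_eq_mul]
    rw [e1]
    have hLK : 0 ≤ (K * L) ^ 3 := by positivity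
    have hK2 : 0 ≤ (K * L) ^ 2 := by positivity
    have e2 : (K * L) ^ 2 * (∫ r in s..t, GG L a (u r)) ≤ C₂ * (K * L) ^ 3 := by
      have := mul_le_mul_of_nonneg_left hG hK2
      have e : (K * L) ^ 2 * (C₂ * (L * K)) = C₂ * (K * L) ^ 3 := by ring
      linarith
    have e3 : (t - s) * (K * L) ^ 3 ≤ C₂ * (K * L) ^ 3 := by
      have a1 : (t - s) * (K * L) ^ 3 ≤ 1 * (K * L) ^ 3 := mul_le_mul_of_nonneg_right (by linarith) hLK
      have a3 : 1 * (K * L) ^ 3 ≤ C₂ * (K * L) ^ 3 :=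
        mul_le_mul_of_nonneg_right hC₂ (by positivity)
      linarith
    have e4 := mul_le_mul_of_nonneg_left (add_le_add e2 e3) hC10.le
    linarith
  have hinit' : FQ PS dl (1 / Sc κ) (1 / √(Sc κ)) κ L a (u t₀) ≤ C₃ * (K * L) ^ 3 := by
    refine (hFle t₀ ⟨le_rfl, h01⟩).trans ?_
    unfold FF
    have e1 := H₃ κ L a (u t₀) hSl0.vs hκ hL
    have e2 := NJ_nn L a (u t₀)
    have e3 := NO_nn L a (u t₀)
    have e4 : 1 / √(Sc κ) * NO L a (u t₀) ≤ 1 * NO L a (u t₀) :=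
      mul_le_mul_of_nonneg_right hl1 e3
    have e5 : C₃ * (NJ L a (u t₀) + NO L a (u t₀)) ≤ C₃ * (K * L) ^ 3 :=
      mul_le_mul_of_nonneg_left hinit (by linarith)
    have e6 : NJ L a (u t₀) ≤ C₃ * NJ L a (u t₀) := by nlinarith only [hC₃, e2]
    have e7 : NO L a (u t₀) ≤ C₃ * NO L a (u t₀) := by nlinarith only [hC₃, e3]
    linarith
  have hPP : 0 ≤ C₁ ^ 2 * C₂ * C₃ * (Sc κ ^ 2 * (K * L) ^ 3) := by positivity
  have hW0 : 0 ≤ (K * L) ^ 3 := by positivity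
  constructor
  · intro s t hs hst ht1 hts
    have key := co_gron (y := fun r => FQ PS dl (1 / Sc κ) (1 / √(Sc κ)) κ L a (u r))
      (d := fun r => 1 / (16 * √(Sc κ)) * DO L a (u r))
      (g := fun r => C₁ * ((K * L) ^ 2 * GG L a (u r) + (K * L) ^ 3)) (t₀ := t₀) (t₁ := t₁) hα hα1 hM kFQ hdc hgc
      hF0 hd0 hineq hwin s t hs hst ht1 hts
    have i1 : IntervalIntegrable (fun r => DO L a (u r)) volume s t :=
      (kDO.mono (Icc_subset_Icc hs ht1)).intervalIntegrable_of_Icc hst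
    have i2 : IntervalIntegrable (fun r => GG L a (u r)) volume s t :=
      (kGG.mono (Icc_subset_Icc hs ht1)).intervalIntegrable_of_Icc hst
    rw [intervalIntegral.integral_add i1 i2]
    simp only [intervalIntegral.integral_const_mul] at key
    have hG := H₂ T u p hNS K L a s t hL (h0.trans hs) hst (lt_of_le_of_lt ht1 h1T)
      (hen s t hs hst ht1 hts)
    have h1 := C5_num hC₁ hC₂ hC₃ hS hr0 hrS hW0 key hinit'
    have h2 : C₂ * (L * K) ≤ C₁ ^ 2 * C₂ * C₃ * (Sc κ ^ 2 * (K * L) ^ 3) := by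
      refine mul_le_mul hq5 ?_ (by positivity) (by positivity)
      have a1 : 1 ≤ K * L := by nlinarith only [hq1, hq3, hq4, hLC, hCK, hL, hθ, hθ1]
      have a2 : (K * L) ^ 1 ≤ (K * L) ^ 3 := pow_le_pow_right₀ a1 (by norm_num)
      have a3 : 1 ≤ Sc κ ^ 2 := one_le_pow₀ (by linarith only [hS, hθ, hθ1])
      have a4 : 1 * (K * L) ^ 3 ≤ Sc κ ^ 2 * (K * L) ^ 3 := mul_le_mul_of_nonneg_right a3 (by positivity)
      linarith
    have e1 : 200 * C₁ ^ 2 * C₂ * C₃ * Sc κ ^ 2 * (K * L) ^ 3 = 200 * (C₁ ^ 2 * C₂ * C₃ * (Sc κ ^ 2 * (K * L) ^ 3)) := by ring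
    have e2 : 112 * C₁ ^ 2 * C₂ * C₃ * Sc κ ^ 2 * (K * L) ^ 3 = 112 * (C₁ ^ 2 * C₂ * C₃ * (Sc κ ^ 2 * (K * L) ^ 3)) := by ring
    rw [e2] at h1
    rw [e1]
    linarith
  · intro t ht
    have key := cq_pt (y := fun r => FQ PS dl (1 / Sc κ) (1 / √(Sc κ)) κ L a (u r))
      (d := fun r => 1 / (16 * √(Sc κ)) * DO L a (u r))
      (g := fun r => C₁ * ((K * L) ^ 2 * GG L a (u r) + (K * L) ^ 3)) (t₀ := t₀) (t₁ := t₁) hα hα1 hM kFQ hdc hgc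
      hF0 hd0 hineq hwin t ht
    have h0' : 1 / (16 * √(Sc κ)) * NO L a (u t) ≤ 1 / √(Sc κ) * NO L a (u t) / 4 := by
      have e3 : 0 ≤ 1 / √(Sc κ) * NO L a (u t) := mul_nonneg hl.le (NO_nn L a (u t))
      have e4 : 1 / (16 * √(Sc κ)) = 1 / 16 * (1 / √(Sc κ)) := by rw [one_div_mul_one_div]
      rw [e4]
      linarith
    have h1 := C5_num (X := NO L a (u t)) hC₁ hC₂ hC₃ hS hr0 hrS hW0 ((h0'.trans (hFge t ht)).trans key) hinit'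
    have e1 : 200 * C₁ ^ 2 * C₂ * C₃ * Sc κ ^ 2 * (K * L) ^ 3 = 200 * (C₁ ^ 2 * C₂ * C₃ * (Sc κ ^ 2 * (K * L) ^ 3)) := by ring
    have e2 : 112 * C₁ ^ 2 * C₂ * C₃ * Sc κ ^ 2 * (K * L) ^ 3 = 112 * (C₁ ^ 2 * C₂ * C₃ * (Sc κ ^ 2 * (K * L) ^ 3)) := by ring
    rw [e2] at h1
    rw [e1]
    linarith

end Pool.Agent.H67.TQ
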