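import Pool.Agent.H67.TQ.C5

/-! MP_09540e_TQ, core: the bootstrap step. -/

set_option autoImplicit false

open Set Filter Topology MeasureTheory
open scoped ContDiff

namespace Pool.Agent.H67.TQ

open Pool.Agent.H16 Pool.Agent.H87.NS Pool.Agent.H72.CC Pool.Agent.H16.TU Pool.Agent.H94.EP

theorem cq_num {C D : ℝ} (hC : 1 ≤ C) (hD : 1 ≤ D) : ∃ c K₀ : ℝ, 0 < c ∧ 2 ≤ K₀ ∧ ∀ K ε : ℝ, K₀ ≤ K → 0 < ε →
    ε ^ 4 * Real.log K ^ 3 ≤ c →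
    ε ≤ 1 ∧ C ≤ K ∧ C * K ≤ K ^ 8 ∧ C * (ε ^ 2 * Sc (K ^ 40) * √(Sc (K ^ 40))) ≤ 1 ∧ D * Sc (K ^ 40) ≤ K / 2 ∧
      C * Sc (K ^ 40) ^ 2 ≤ K ^ 2 / 2 := by
  have hC0 : 0 < C := by linarith
  have hD0 : 0 < D := by linarith
  obtain ⟨E, hE⟩ : ∃ E, E = C + D := ⟨_, rfl⟩
  have hE1 : 1 ≤ E := by linarith
  have hE0 : 0 < E := by linarith
  refine ⟨1 / (16777216 * C ^ 2), 2 + C + 1048576 * E ^ 2, by positivity, by nlinarith [sq_nonneg E], ?_⟩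
  intro K ε hK hε hl
  have hE2 : 0 ≤ E ^ 2 := sq_nonneg E
  have hK2 : 2 ≤ K := by linarith
  have hK0 : 0 < K := by linarith
  have hKC : C ≤ K := by linarith
  have hKE : 1048576 * E ^ 2 ≤ K := by linarith
  have hlog : 1 / 2 ≤ Real.log K := by
    have h1 : Real.log 2 ≤ Real.log K := Real.log_le_log (by norm_num) hK2
    have h2 := Real.log_two_gt_d9
    linarith
  have hSc : Sc (K ^ 40) = 20 + 160 * Real.log K := by
    unfold Sc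
    rw [Real.log_pow]
    push_cast
    ring
  have hSc64 : Sc (K ^ 40) ≤ 256 * Real.log K := by
    rw [hSc]
    linarith
  have hSc0 : 0 ≤ Sc (K ^ 40) := by
    rw [hSc]
    linarith
  have hsq : √K * √K = K := Real.mul_self_sqrt hK0.le
  have hsq0 : 0 < √K := Real.sqrt_pos.mpr hK0
  have hsD : 1024 * E ≤ √K := by
    apply Real.le_sqrt_of_sq_le
    linarith only [hC, hK]
  have hlogle : Real.log K ≤ 2 * √K := by
    have h1 : Real.log K = 2 * Real.log (√K) := by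
      rw [Real.log_sqrt hK0.le]
      ring
    have h2 : Real.log (√K) ≤ √K := Real.log_le_self hsq0.le
    linarith
  have hcinv : 1 / (16777216 * C ^ 2) ≤ 1 / 16777216 := by
    apply one_div_le_one_div_of_le (by norm_num)
    nlinarith only [hC]
  have hES : E * Sc (K ^ 40) ≤ K / 2 := by
    have h1 : E * Sc (K ^ 40) ≤ E * (512 * √K) := by
      apply mul_le_mul_of_nonneg_left _ hE0.le
      linarith
    have h2 : 1024 * E * √K ≤ √K * √K := mul_le_mul_of_nonneg_right hsD hsq0.le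
    linarith
  refine ⟨?_, hKC, ?_, ?_, ?_, ?_⟩
  · by_contra h
    push Not at h
    have h1 : 1 ≤ ε ^ 4 := one_le_pow₀ h.le
    have h2 : (1 / 2) ^ 3 ≤ Real.log K ^ 3 := pow_le_pow_left₀ (by norm_num) hlog 3
    have h3 : 1 * (1 / 2) ^ 3 ≤ ε ^ 4 * Real.log K ^ 3 := mul_le_mul h1 h2 (by norm_num) (by positivity)
    norm_num at h3
    linarith
  · have h1 : (1 : ℝ) ≤ K ^ 6 := one_le_pow₀ (by linarith)
    have h2 : C * K ≤ K * K := mul_le_mul_of_nonneg_right hKC hK0.le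
    have h3 : K * K ≤ K ^ 6 * (K * K) := le_mul_of_one_le_left (by positivity) h1
    calc C * K ≤ K ^ 6 * (K * K) := h2.trans h3
      _ = K ^ 8 := by ring
  · have h0 : 0 ≤ C * (ε ^ 2 * Sc (K ^ 40) * √(Sc (K ^ 40))) := by positivity
    have h1 : (C * (ε ^ 2 * Sc (K ^ 40) * √(Sc (K ^ 40)))) ^ 2 ≤ 1 := by
      have e1 : (C * (ε ^ 2 * Sc (K ^ 40) * √(Sc (K ^ 40)))) ^ 2 =
          C ^ 2 * (ε ^ 4 * Sc (K ^ 40) ^ 2 * (√(Sc (K ^ 40)) * √(Sc (K ^ 40)))) := by ring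
      rw [e1, Real.mul_self_sqrt hSc0]
      have e2 : Sc (K ^ 40) ^ 3 ≤ (256 * Real.log K) ^ 3 := pow_le_pow_left₀ hSc0 hSc64 3
      have e3 : ε ^ 4 * Sc (K ^ 40) ^ 3 ≤ 16777216 * (ε ^ 4 * Real.log K ^ 3) := by
        have := mul_le_mul_of_nonneg_left e2 (by positivity : 0 ≤ ε ^ 4)
        have e : ε ^ 4 * (256 * Real.log K) ^ 3 = 16777216 * (ε ^ 4 * Real.log K ^ 3) := by ring
        linarith
      have e4 : C ^ 2 * (16777216 * (ε ^ 4 * Real.log K ^ 3)) ≤ C ^ 2 * (16777216 * (1 / (16777216 * C ^ 2))) := by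
        apply mul_le_mul_of_nonneg_left _ (by positivity)
        linarith
      have e5 : C ^ 2 * (16777216 * (1 / (16777216 * C ^ 2))) = 1 := by
        field_simp
      have e6 : C ^ 2 * (ε ^ 4 * Sc (K ^ 40) ^ 2 * Sc (K ^ 40)) = C ^ 2 * (ε ^ 4 * Sc (K ^ 40) ^ 3) := by ring
      rw [e6]
      have e7 := mul_le_mul_of_nonneg_left e3 (by positivity : 0 ≤ C ^ 2)
      linarith
    by_contra h
    push Not at h
    have h2 : 1 < (C * (ε ^ 2 * Sc (K ^ 40) * √(Sc (K ^ 40)))) ^ 2 := one_lt_pow₀ h (by norm_num)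
    linarith
  · have : D * Sc (K ^ 40) ≤ E * Sc (K ^ 40) := mul_le_mul_of_nonneg_right (by linarith) hSc0
    linarith
  · have h1 : (E * Sc (K ^ 40)) ^ 2 ≤ (K / 2) ^ 2 := pow_le_pow_left₀ (by positivity) hES 2
    have h2 : C ≤ E ^ 2 := by nlinarith only [hC, hD, hE]
    have h3 : C * Sc (K ^ 40) ^ 2 ≤ E ^ 2 * Sc (K ^ 40) ^ 2 := mul_le_mul_of_nonneg_right h2 (sq_nonneg _)
    have h4 : 0 ≤ K ^ 2 := sq_nonneg K
    nlinarith only [h1, h3]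

theorem cq_boot (PS RQ : ℝ → ℝ → ℝ → (E3 → E3) → ℝ) (dl : ℝ) (h1w : P1w) (h1a : P1a) (hq : QRate RQ) (h1c : P1c)
    (h1g : P1g) (h1h : P1h) (h1n : P1n) (h2c : P2c) (hpos : QPos PS dl) (hin : QIn PS RQ dl) (hcont : QCont PS)
    (h2v : P2v) (h3 : P3) :
    ∃ c K₀ : ℝ, 0 < c ∧ 2 ≤ K₀ ∧ ∀ (K ε : ℝ), K₀ ≤ K → 0 < ε → ε ^ 4 * Real.log K ^ 3 ≤ c →
    ∀ (T : ℝ) (u : ℝ → E3 → E3) (p : ℝ → E3 → ℝ), IsHInfAxisymNS T u p → ∀ t₀ t₁ : ℝ, 0 ≤ t₀ → t₀ ≤ t₁ → t₁ < T →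
    (∀ t ∈ Icc t₀ t₁, ∀ x, rad x < 1 → |circ (u t) x| ≤ ε) →
    (∀ t ∈ Icc t₀ t₁, ∀ z, ∫ x in Metric.ball (axp z) 1, ‖u t x‖ ^ 2 ≤ K) →
    (∀ s t : ℝ, t₀ ≤ s → s ≤ t → t ≤ t₁ → t ≤ s + 1 → ∀ z, ∫ r in s..t, ∫ x in Metric.ball (axp z) 1, gv (u r) x ≤ K) →
    (∀ x, rad x < 1 → |sV (u t₀) x| ≤ ε * K ^ 7) → (∀ a, NJ (K ^ 8) a (u t₀) + NO (K ^ 8) a (u t₀) ≤ K ^ 11) →
    (∀ t ∈ Icc t₀ t₁, ∀ x, rad x < 1 → |circ (u t) x| ≤ ε * (K ^ 40 * rad x)) →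
    (∀ t ∈ Icc t₀ t₁, ∀ b, NO (K ^ 8) b (u t) ≤ K ^ 29) →
    (∀ x, rad x < 1 → |circ (u t₁) x| ≤ ε * (K ^ 40 / 2 * rad x)) ∧ ∀ b, NO (K ^ 8) b (u t₁) ≤ K ^ 29 / 2 := by
  obtain ⟨Ce, hCe1, hCe⟩ := cq_energy PS RQ dl h1a hq h1c h1g h1h h1n h2c hpos hin hcont
  obtain ⟨Cw, hCw1, hCw⟩ := h1w
  obtain ⟨Cb, hCb1, hCb⟩ := h3
  have hCe0 : 0 < Ce := by linarith
  have hCw0 : 0 < Cw := by linarith
  have hCb0 : 0 < Cb := by linarith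
  have hCC : 1 ≤ Ce * Cw := one_le_mul_of_one_le_of_one_le hCe1 hCw1
  have hs1 : 1 ≤ √(2 * Cw * Ce) := by
    apply Real.le_sqrt_of_sq_le
    nlinarith
  have hDD : 1 ≤ Cb * √(2 * Cw * Ce) := one_le_mul_of_one_le_of_one_le hCb1 hs1
  obtain ⟨c, K₀, hc, hK₀, hnum⟩ := cq_num hCC hDD
  refine ⟨c, K₀, hc, hK₀, ?_⟩
  intro K ε hK hε hεK T u p hNS t₀ t₁ h0 h01 h1T hcirc hen hwin hV hN hκ hO
  obtain ⟨hε1, hCK1, hCK, hCS, hDS, hCS2⟩ := hnum K ε hK hε hεK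
  have hK2 : 2 ≤ K := hK₀.trans hK
  have hK1 : 1 ≤ K := by linarith
  have hK0 : 0 < K := by linarith
  have hL1 : 1 ≤ K ^ 8 := one_le_pow₀ hK1
  have hκ1 : 1 ≤ K ^ 40 := one_le_pow₀ hK1
  have hSc20 : 20 ≤ Sc (K ^ 40) := by
    unfold Sc
    have := Real.log_nonneg hκ1
    linarith
  have hSc0 : 0 < Sc (K ^ 40) := by linarith
  have hSl : ∀ t ∈ Icc t₀ t₁, Sl ε K (K ^ 40) (u t) := by
    intro t ht
    refine ⟨h2v T u p hNS t ⟨h0.trans ht.1, ht.2.trans_lt h1T⟩, hε, hε1, hκ1, hK2, ?_,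
      hen t ht⟩
    intro y hy
    rw [mul_min_of_nonneg _ _ hε.le, mul_one]
    exact le_min (hcirc t ht y hy) (hκ t ht y hy)
  have hCeC : Ce ≤ Ce * Cw := le_mul_of_one_le_right hCe0.le hCw1
  have hCeL : Ce * K ≤ K ^ 8 := by
    refine le_trans ?_ hCK
    exact mul_le_mul_of_nonneg_right hCeC hK0.le
  have hCeS : Ce * (ε ^ 2 * Sc (K ^ 40) * √(Sc (K ^ 40))) ≤ 1 := by
    refine le_trans ?_ hCS
    exact mul_le_mul_of_nonneg_right hCeC (by positivity)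
  have hCwL : Cw ≤ K ^ 8 := by
    have h1 : Cw ≤ Ce * Cw := le_mul_of_one_le_left hCw0.le hCe1
    have h2 : Ce * Cw ≤ Ce * Cw * K := le_mul_of_one_le_right (by positivity) hK1
    linarith
  have hLκ : (K * K ^ 8) ^ 4 ≤ K ^ 40 := by
    calc (K * K ^ 8) ^ 4 = K ^ 36 := by ring
      _ ≤ K ^ 40 := pow_le_pow_right₀ hK1 (by norm_num)
  have hO' : ∀ t ∈ Icc t₀ t₁, ∀ b, K * K ^ 8 * NO (K ^ 8) b (u t) ≤ K ^ 40 := by
    intro t ht b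
    have h1 := mul_le_mul_of_nonneg_left (hO t ht b) (by positivity : 0 ≤ K * K ^ 8)
    calc K * K ^ 8 * NO (K ^ 8) b (u t) ≤ K * K ^ 8 * K ^ 29 := h1
      _ = K ^ 38 := by ring
      _ ≤ K ^ 40 := pow_le_pow_right₀ hK1 (by norm_num)
  have hen3 := hCe T u p hNS ε K (K ^ 40) (K ^ 8) t₀ t₁ h0 h01 h1T hCeL (hCeC.trans hCK1) hLκ hCeS hSl hO' hwin
  have hCS3 : Ce * Sc (K ^ 40) ^ 2 * (K * K ^ 8) ^ 3 ≤ K ^ 29 / 2 := by
    have h1 : Ce * Sc (K ^ 40) ^ 2 ≤ K ^ 2 / 2 :=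
      (mul_le_mul_of_nonneg_right hCeC (sq_nonneg _)).trans hCS2
    have h2 := mul_le_mul_of_nonneg_right h1 (by positivity : 0 ≤ K ^ 27)
    calc Ce * Sc (K ^ 40) ^ 2 * (K * K ^ 8) ^ 3 = Ce * Sc (K ^ 40) ^ 2 * K ^ 27 := by ring
      _ ≤ K ^ 2 / 2 * K ^ 27 := h2
      _ = K ^ 29 / 2 := by ring
  have hN' : ∀ a, NJ (K ^ 8) a (u t₀) + NO (K ^ 8) a (u t₀) ≤ (K * K ^ 8) ^ 3 := by
    intro a
    refine (hN a).trans ?_
    calc K ^ 11 ≤ K ^ 27 := pow_le_pow_right₀ hK1 (by norm_num)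
      _ = (K * K ^ 8) ^ 3 := by ring
  refine ⟨?_, fun b => ((hen3 b (hN' b)).2 t₁ ⟨h01, le_rfl⟩).trans hCS3⟩
  intro x hx
  have hen2 := (hen3 (x 2) (hN' (x 2))).1
  obtain ⟨-, hcDO, hcGG, -⟩ := h2c T u p hNS (1 / 2) 0 (K ^ 8) (x 2) (by norm_num) le_rfl hL1
  have hsub : Icc t₀ t₁ ⊆ Ico 0 T := fun t ht => ⟨h0.trans ht.1, ht.2.trans_lt h1T⟩
  have hcDO' := hcDO.mono hsub
  have hcGG' := hcGG.mono hsub
  let q : ℝ → ℝ := fun t => Cw * (K ^ 8 * K + DO (K ^ 8) (x 2) (u t) + GG (K ^ 8) (x 2) (u t))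
  have hqc : ContinuousOn q (Icc t₀ t₁) :=
    continuousOn_const.mul ((continuousOn_const.add hcDO').add hcGG')
  have hq0 : ∀ t, 0 ≤ q t := by
    intro t
    have h1 := DO_nn (K ^ 8) (x 2) (u t)
    have h2 := GG_nn (K ^ 8) (x 2) (u t)
    positivity
  have hqb : ∀ t ∈ Icc t₀ t₁, ∀ y, rsq y ≤ 1 / 4 → |y 2 - x 2| ≤ 1 →
      sW (u t) y ^ 2 ≤ q t ∧ u t y 2 ^ 2 ≤ q t := by
    intro t ht y hy hya
    obtain ⟨h1, h2⟩ := hCw ε K (K ^ 40) (K ^ 8) (x 2) (u t) (hSl t ht) hCwL y hy (hya.trans hL1)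
    refine ⟨h1.trans ?_, h2⟩
    apply mul_le_mul_of_nonneg_left _ hCw0.le
    have : 0 ≤ K ^ 8 * K := by positivity
    linarith
  have hP1 : 1 ≤ 2 * Cw * Ce * (Sc (K ^ 40) * K ^ 14) ^ 2 := by
    have h1 : 1 ≤ (Sc (K ^ 40) * K ^ 14) ^ 2 :=
      one_le_pow₀ (one_le_mul_of_one_le_of_one_le (by linarith) (one_le_pow₀ hK1))
    have h2 : 1 ≤ 2 * Cw * Ce := by linarith only [hCC]
    exact one_le_mul_of_one_le_of_one_le h2 h1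
  have hqw : ∀ s t : ℝ, t₀ ≤ s → s ≤ t → t ≤ t₁ → t ≤ s + 1 →
      ∫ r in s..t, q r ≤ 2 * Cw * Ce * (Sc (K ^ 40) * K ^ 14) ^ 2 := by
    intro s t hs hst ht hts
    have hsub2 : uIcc s t ⊆ Icc t₀ t₁ := by
      rw [uIcc_of_le hst]
      exact Icc_subset_Icc hs ht
    have hi : IntervalIntegrable (fun r => DO (K ^ 8) (x 2) (u r) + GG (K ^ 8) (x 2) (u r))
        volume s t := ((hcDO'.add hcGG').mono hsub2).intervalIntegrable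
    have he := hen2 s t hs hst ht hts
    have h1 : ∫ r in s..t, q r = Cw * (K ^ 8 * K * (t - s) +
        ∫ r in s..t, (DO (K ^ 8) (x 2) (u r) + GG (K ^ 8) (x 2) (u r))) := by
      have h2 : ∀ r, q r = Cw * (K ^ 8 * K +
          (DO (K ^ 8) (x 2) (u r) + GG (K ^ 8) (x 2) (u r))) := by
        intro r
        show Cw * _ = _
        ring
      simp only [h2]
      rw [intervalIntegral.integral_const_mul, intervalIntegral.integral_add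
        intervalIntegrable_const hi, intervalIntegral.integral_const, smul_eq_mul]
      ring
    rw [h1]
    have h3 : K ^ 8 * K * (t - s) ≤ Ce * Sc (K ^ 40) ^ 2 * (K * K ^ 8) ^ 3 := by
      have h4 : K ^ 8 * K * (t - s) ≤ K ^ 8 * K * 1 :=
        mul_le_mul_of_nonneg_left (by linarith) (by positivity)
      have h5 : 1 ≤ Ce * Sc (K ^ 40) ^ 2 * K ^ 18 :=
        one_le_mul_of_one_le_of_one_le (one_le_mul_of_one_le_of_one_le hCe1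
          (one_le_pow₀ (by linarith))) (one_le_pow₀ hK1)
      have h6 : K ^ 8 * K * 1 ≤ K ^ 8 * K * (Ce * Sc (K ^ 40) ^ 2 * K ^ 18) :=
        mul_le_mul_of_nonneg_left h5 (by positivity)
      calc K ^ 8 * K * (t - s) ≤ K ^ 8 * K * (Ce * Sc (K ^ 40) ^ 2 * K ^ 18) := h4.trans h6
        _ = Ce * Sc (K ^ 40) ^ 2 * (K * K ^ 8) ^ 3 := by ring
    calc Cw * (K ^ 8 * K * (t - s) +
          ∫ r in s..t, (DO (K ^ 8) (x 2) (u r) + GG (K ^ 8) (x 2) (u r)))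
        ≤ Cw * (Ce * Sc (K ^ 40) ^ 2 * (K * K ^ 8) ^ 3 + Ce * Sc (K ^ 40) ^ 2 * (K * K ^ 8) ^ 3) :=
          mul_le_mul_of_nonneg_left (add_le_add h3 he) hCw0.le
      _ ≤ 2 * Cw * Ce * (Sc (K ^ 40) * K ^ 14) ^ 2 := by
          have h7 : K ^ 27 ≤ K ^ 28 := pow_le_pow_right₀ hK1 (by norm_num)
          have h8 : 0 ≤ 2 * Cw * Ce * Sc (K ^ 40) ^ 2 := by positivity
          have h9 := mul_le_mul_of_nonneg_left h7 h8
          calc Cw * (Ce * Sc (K ^ 40) ^ 2 * (K * K ^ 8) ^ 3 + Ce * Sc (K ^ 40) ^ 2 * (K * K ^ 8) ^ 3)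
              = 2 * Cw * Ce * Sc (K ^ 40) ^ 2 * K ^ 27 := by ring
            _ ≤ 2 * Cw * Ce * Sc (K ^ 40) ^ 2 * K ^ 28 := h9
            _ = 2 * Cw * Ce * (Sc (K ^ 40) * K ^ 14) ^ 2 := by ring
  have hPK : K ^ 7 ≤ 2 * Cw * Ce * (Sc (K ^ 40) * K ^ 14) ^ 2 := by
    have h1 : 1 ≤ 2 * Cw * Ce * Sc (K ^ 40) ^ 2 :=
      one_le_mul_of_one_le_of_one_le (by linarith only [hCC]) (one_le_pow₀ (by linarith))
    have h2 : K ^ 7 ≤ K ^ 28 := pow_le_pow_right₀ hK1 (by norm_num)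
    have h3 : K ^ 28 ≤ 2 * Cw * Ce * Sc (K ^ 40) ^ 2 * K ^ 28 := le_mul_of_one_le_left (by positivity) h1
    calc K ^ 7 ≤ 2 * Cw * Ce * Sc (K ^ 40) ^ 2 * K ^ 28 := h2.trans h3
      _ = 2 * Cw * Ce * (Sc (K ^ 40) * K ^ 14) ^ 2 := by ring
  have hfin := hCb T u p hNS ε hε t₀ t₁ h0 h01 h1T hcirc _ hP1
    (fun y hy => (hV y hy).trans (mul_le_mul_of_nonneg_left hPK hε.le)) (x 2) q hqc hq0 hqb hqw x hx rfl
  refine hfin.trans ?_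
  have hrad : 0 ≤ rad x := Real.sqrt_nonneg _
  have hsqrt : √(2 * Cw * Ce * (Sc (K ^ 40) * K ^ 14) ^ 2) = √(2 * Cw * Ce) * (Sc (K ^ 40) * K ^ 14) := by
    rw [Real.sqrt_mul (by positivity), Real.sqrt_sq (by positivity)]
  rw [hsqrt]
  have hK15 : K ^ 15 ≤ K ^ 40 := pow_le_pow_right₀ hK1 (by norm_num)
  calc Cb * ε * (√(2 * Cw * Ce) * (Sc (K ^ 40) * K ^ 14)) * rad x
      = ε * (Cb * √(2 * Cw * Ce) * Sc (K ^ 40)) * (K ^ 14 * rad x) := by ring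
    _ ≤ ε * (K / 2) * (K ^ 14 * rad x) := by
        apply mul_le_mul_of_nonneg_right _ (by positivity)
        exact mul_le_mul_of_nonneg_left hDS hε.le
    _ = ε * (K ^ 15 / 2 * rad x) := by ring
    _ ≤ ε * (K ^ 40 / 2 * rad x) := by
        apply mul_le_mul_of_nonneg_left _ hε.le
        apply mul_le_mul_of_nonneg_right _ hrad
        linarith

end Pool.Agent.H67.TQ
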