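import Pool.Agent.H67.TQ.C6

/-! MP_09540e_TQ, core: the continuity argument. -/

set_option autoImplicit false

open Set Filter Topology MeasureTheory
open scoped ContDiff

namespace Pool.Agent.H67.TQ

open Pool.Agent.H16 Pool.Agent.H87.NS Pool.Agent.H72.CC Pool.Agent.H16.TU Pool.Agent.H94.EP

private theorem C7_diff {v w : E3 → E3} (hv : AxF v) (hw : AxF w) {D : ℝ} (x : E3)
    (h : |sV v x - sV w x| ≤ D) : |circ v x| ≤ |circ w x| + rad x ^ 2 * D := by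
  have h0 : 0 ≤ rad x ^ 2 := sq_nonneg _
  have h1 : circ v x = circ w x + rad x ^ 2 * (sV v x - sV w x) := by
    rw [circ_eq hv, circ_eq hw, rad_sq']
    ring
  rw [h1]
  refine (abs_add_le _ _).trans ?_
  rw [abs_mul, abs_of_nonneg h0]
  exact add_le_add le_rfl (mul_le_mul_of_nonneg_left h h0)

/-- The core, from the properties of the functional. -/
theorem cq_core (PS RQ : ℝ → ℝ → ℝ → (E3 → E3) → ℝ) (dl : ℝ) (h1w : P1w) (h1a : P1a) (hq : QRate RQ) (h1c : P1c)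
    (h1g : P1g) (h1h : P1h) (h1n : P1n) (h2c : P2c) (hpos : QPos PS dl) (hin : QIn PS RQ dl) (hcont : QCont PS)
    (hlip : QLip) (h2v : P2v) (h2l : P2l) (h3 : P3) :
    ∃ c K₀ : ℝ, 0 < c ∧ 2 ≤ K₀ ∧ ∀ (K ε : ℝ), K₀ ≤ K → 0 < ε → ε ^ 4 * Real.log K ^ 3 ≤ c →
    ∃ C : ℝ, ∀ (T : ℝ) (u : ℝ → E3 → E3) (p : ℝ → E3 → ℝ), IsHInfAxisymNS T u p → ∀ t₀ ∈ Ico 0 T,
    (∀ t ∈ Ico t₀ T, ∀ x, rad x < 1 → |circ (u t) x| ≤ ε) →
    (∀ t ∈ Ico t₀ T, ∀ z, ∫ x in Metric.ball (axp z) 1, ‖u t x‖ ^ 2 ≤ K) →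
    (∀ s t : ℝ, t₀ ≤ s → s ≤ t → t < T → t ≤ s + 1 → ∀ z, ∫ r in s..t, ∫ x in Metric.ball (axp z) 1, gv (u r) x ≤ K) →
    (∀ x, rad x < 1 → |sV (u t₀) x| ≤ ε * K ^ 7) → (∀ a, NJ (K ^ 8) a (u t₀) + NO (K ^ 8) a (u t₀) ≤ K ^ 11) →
    ∀ t ∈ Ico t₀ T, ∀ x, rad x < 1 → |circ (u t) x| ≤ C * rad x := by
  obtain ⟨c, K₀, hc, hK₀, hboot⟩ := cq_boot PS RQ dl h1w h1a hq h1c h1g h1h h1n h2c hpos hin hcont h2v h3
  refine ⟨c, K₀, hc, hK₀, ?_⟩
  intro K ε hK hε hεK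
  refine ⟨ε * K ^ 40, ?_⟩
  intro T u p hNS t₀ ht₀ hcirc hen hgv hs0 hNJ b hb
  have hK2 : (2 : ℝ) ≤ K := hK₀.trans hK
  have hK1 : (1 : ℝ) ≤ K := by linarith
  have hK40 : (1 : ℝ) ≤ K ^ 40 := one_le_pow₀ hK1
  have hK8 : (1 : ℝ) ≤ K ^ 8 := one_le_pow₀ hK1
  have hK29 : (1 : ℝ) ≤ K ^ 29 := one_le_pow₀ hK1
  obtain ⟨B, hB0, -, hB⟩ := h2l T u p hNS b hb.2
  obtain ⟨B', hB0', hB'⟩ := hlip T u p hNS b hb.2 (K ^ 8) hK8
  have hB1 : 0 < B + 1 := by linarith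
  have hB1' : 0 < B' + 1 := by linarith
  have hεK40 : 0 < ε * K ^ 40 := mul_pos hε (by linarith)
  obtain ⟨δ, hδ⟩ : ∃ δ, δ = min (ε * K ^ 40 / (2 * (B + 1))) (K ^ 29 / (2 * (B' + 1))) := ⟨_, rfl⟩
  have hδ0 : 0 < δ := by rw [hδ]; positivity
  have hBδ : (B + 1) * δ ≤ ε * K ^ 40 / 2 := by
    have h1 : δ ≤ ε * K ^ 40 / (2 * (B + 1)) := by rw [hδ]; exact min_le_left _ _
    have h2' := mul_le_mul_of_nonneg_left h1 hB1.le
    have h3' : (B + 1) * (ε * K ^ 40 / (2 * (B + 1))) = ε * K ^ 40 / 2 := by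
      field_simp
    linarith
  have hBδ' : (B' + 1) * δ ≤ K ^ 29 / 2 := by
    have h1 : δ ≤ K ^ 29 / (2 * (B' + 1)) := by rw [hδ]; exact min_le_right _ _
    have h2' := mul_le_mul_of_nonneg_left h1 hB1'.le
    have h3' : (B' + 1) * (K ^ 29 / (2 * (B' + 1))) = K ^ 29 / 2 := by
      field_simp
    linarith
  have hax : ∀ s ∈ Icc t₀ b, AxF (u s) := fun s hs =>
    (h2v T u p hNS s ⟨ht₀.1.trans hs.1, hs.2.trans_lt hb.2⟩).ax
  have hrad0 : ∀ x : E3, 0 ≤ rad x := fun x => Real.sqrt_nonneg _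
  -- the step
  have hstep : ∀ τ, t₀ ≤ τ → τ ≤ b →
      (∀ s ∈ Icc t₀ τ, (∀ x, rad x < 1 → |circ (u s) x| ≤ ε * (K ^ 40 * rad x)) ∧ ∀ a, NO (K ^ 8) a (u s) ≤ K ^ 29) →
      ∀ s, τ ≤ s → s ≤ τ + δ → s ≤ b → (∀ x, rad x < 1 →
        |circ (u s) x| ≤ ε * (K ^ 40 * rad x)) ∧ ∀ a, NO (K ^ 8) a (u s) ≤ K ^ 29 := by
    intro τ h1 h2' hS s hs1 hs2 hs3
    have hτT : τ < T := h2'.trans_lt hb.2
    have h4 := hboot K ε hK hε hεK T u p hNS t₀ τ ht₀.1 h1 hτT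
      (fun t ht => hcirc t ⟨ht.1, ht.2.trans_lt hτT⟩)
      (fun t ht => hen t ⟨ht.1, ht.2.trans_lt hτT⟩)
      (fun s t hs hst htτ hts => hgv s t hs hst (htτ.trans_lt hτT) hts) hs0 hNJ (fun t ht => (hS t ht).1)
      (fun t ht => (hS t ht).2)
    constructor
    · intro x hx
      have h5 := hB τ ⟨ht₀.1.trans h1, h2'⟩ s ⟨(ht₀.1.trans h1).trans hs1, hs3⟩ x
      rw [abs_of_nonneg (sub_nonneg.2 hs1)] at h5
      have h6 : |sV (u s) x - sV (u τ) x| ≤ ε * K ^ 40 / 2 := by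
        refine h5.trans ?_
        refine (mul_le_mul_of_nonneg_left (by linarith : s - τ ≤ δ) hB0).trans ?_
        have := mul_le_mul_of_nonneg_right (by linarith : B ≤ B + 1) hδ0.le
        linarith
      have h7 := C7_diff (hax s ⟨h1.trans hs1, hs3⟩) (hax τ ⟨h1, h2'⟩) x h6
      have h8 : rad x ^ 2 ≤ rad x := by
        have := hrad0 x
        nlinarith only [hx, this]
      have h9 : rad x ^ 2 * (ε * K ^ 40 / 2) ≤ rad x * (ε * K ^ 40 / 2) :=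
        mul_le_mul_of_nonneg_right h8 (by linarith)
      calc |circ (u s) x| ≤ ε * (K ^ 40 / 2 * rad x) + rad x * (ε * K ^ 40 / 2) :=
            h7.trans (add_le_add (h4.1 x hx) h9)
        _ = ε * (K ^ 40 * rad x) := by ring
    · intro a
      have h5 := hB' τ ⟨ht₀.1.trans h1, h2'⟩ s ⟨(ht₀.1.trans h1).trans hs1, hs3⟩ a
      rw [abs_of_nonneg (sub_nonneg.2 hs1)] at h5
      have h6 := le_abs_self (NO (K ^ 8) a (u s) - NO (K ^ 8) a (u τ))
      have h7 : B' * (s - τ) ≤ B' * δ := mul_le_mul_of_nonneg_left (by linarith) hB0'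
      have h8 : B' * δ ≤ (B' + 1) * δ := mul_le_mul_of_nonneg_right (by linarith) hδ0.le
      have h9 := h4.2 a
      linarith
  -- the induction
  have hind : ∀ n : ℕ, ∀ s ∈ Icc t₀ (min b (t₀ + n * δ)), (∀ x, rad x < 1 →
      |circ (u s) x| ≤ ε * (K ^ 40 * rad x)) ∧ ∀ a, NO (K ^ 8) a (u s) ≤ K ^ 29 := by
    intro n
    induction n with
    | zero =>
      intro s hs
      have hs' : s = t₀ := by
        refine le_antisymm ?_ hs.1
        have := hs.2.trans (min_le_right _ _)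
        simpa using this
      rw [hs']
      constructor
      · intro x hx
        rw [circ_eq (hax t₀ ⟨le_rfl, hb.1⟩), abs_mul, ← rad_sq', abs_of_nonneg (sq_nonneg _)]
        have h1 := (hs0 x hx).trans (mul_le_mul_of_nonneg_left (pow_le_pow_right₀ hK1 (by norm_num : 7 ≤ 40)) hε.le)
        have h2' := hrad0 x
        have h8 : rad x ^ 2 ≤ rad x := by nlinarith only [hx, h2']
        calc rad x ^ 2 * |sV (u t₀) x| ≤ rad x * (ε * K ^ 40) :=
              mul_le_mul h8 h1 (abs_nonneg _) h2'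
          _ = ε * (K ^ 40 * rad x) := by ring
      · intro a
        have h1 := hNJ a
        have h2' := NJ_nn (K ^ 8) a (u t₀)
        have h3' : K ^ 11 ≤ K ^ 29 := pow_le_pow_right₀ hK1 (by norm_num)
        linarith
    | succ n ih =>
      intro s hs
      rcases le_or_gt s (min b (t₀ + n * δ)) with h | h
      · exact ih s ⟨hs.1, h⟩
      · have hsb : s ≤ b := hs.2.trans (min_le_left _ _)
        have hmin : min b (t₀ + n * δ) = t₀ + n * δ := by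
          rcases min_choice b (t₀ + n * δ) with h' | h'
          · rw [h'] at h
            exact absurd h (not_lt.2 hsb)
          · exact h'
        have hs2 : s ≤ t₀ + (n + 1 : ℕ) * δ := hs.2.trans (min_le_right _ _)
        push_cast at hs2
        refine hstep (min b (t₀ + n * δ)) ?_ (min_le_left _ _) ih s h.le ?_ hsb
        · refine le_min hb.1 ?_
          have : 0 ≤ (n : ℝ) * δ := mul_nonneg (Nat.cast_nonneg n) hδ0.le
          linarith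
        · rw [hmin]
          linarith
  intro x hx
  obtain ⟨n, hn⟩ := exists_nat_gt ((b - t₀) / δ)
  rw [div_lt_iff₀ hδ0] at hn
  have h1 : min b (t₀ + n * δ) = b := min_eq_left (by linarith)
  have h2' := (hind n b ⟨hb.1, by rw [h1]⟩).1 x hx
  rw [mul_assoc]
  exact h2'

end Pool.Agent.H67.TQ
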