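import Pool.Agent.H67.TQ.C7
import Pool.Agent.H94.EP.Spec
import Pool.Agent.H94.TQ.CoE

/-! MP_09540e_TQ, core: the statements of the first part discharged. -/

set_option autoImplicit false

open Set Filter Topology MeasureTheory
open scoped ContDiff

namespace Pool.Agent.H67.TQ

open Pool.Agent.H16 Pool.Agent.H87.NS Pool.Agent.H72.CC Pool.Agent.H16.TU Pool.Agent.H94.EP

/-- The core, from the properties of the correction. -/
theorem core34 (PS RQ : ℝ → ℝ → ℝ → (E3 → E3) → ℝ) (dl : ℝ) (hq : QRate RQ) (hpos : QPos PS dl) (hin : QIn PS RQ dl)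
    (hcont : QCont PS) (hlip : QLip) : Pool.Agent.H94.TQ.Core34 :=
  cq_core PS RQ dl Spec.p1w Spec.p1a hq Spec.p1c Spec.p1g Spec.p1h Spec.p1n
    (fun _ _ _ h _ _ _ _ h1 h2 h3 => Spec.p2c h h1 h2 h3) hpos hin hcont hlip
    (fun _ _ _ h _ ht => Spec.vs_of h ht) (fun _ _ _ h _ hb => Spec.v_lip h hb) Spec.barrier

end Pool.Agent.H67.TQ
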